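import Pool.Agent.Helper81.SBA.W.Hz

/-!
# Hirzebruch covers of arrangements with bounded multiplicities, any number of lines
-/

set_option autoImplicit false

open Module Finset

namespace Pool.Agent.Helper81.SBA

private theorem ho_dropL {m : ℕ} (s : Fin (m + 2)) (P : Pt (m + 1)) (l : List (Pt (m + 1))) :
    dropL s (P :: l) = if 2 ≤ (drop s P).k then drop s P :: dropL s l else dropL s l := by
  unfold dropL
  rw [List.filter_cons]
  by_cases h3 : 2 ≤ (drop s P).k
  · rw [if_pos (by simpa using h3), if_pos h3, List.map_cons]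
  · rw [if_neg (by simpa using h3), if_neg h3]

private theorem ho_key {m : ℕ} (s : Fin (m + 2)) (l : List (Pt (m + 1)))
    (h : ∀ P ∈ l, 2 ≤ P.k) :
    ((dropL s l).map fun P => hk P.k).sum ≤ (l.map fun P => hk P.k).sum +
      2 * (((l.filter fun P => decide (s ∈ blk P)).map fun P => P.k - 1).sum : ℕ) := by
  induction l with
  | nil => simp [dropL]
  | cons P l ih =>
    have ih' := ih fun Q hQ => h Q (List.mem_cons_of_mem P hQ)
    have h2 := h P List.mem_cons_self
    have hk' : (drop s P).k = if s ∈ blk P then P.k - 1 else P.k := rfl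
    have hD := ho_dropL s P l
    rw [List.map_cons, List.sum_cons, List.filter_cons]
    by_cases hs : s ∈ blk P
    · rw [if_pos hs] at hk'
      rw [if_pos (show decide (s ∈ blk P) = true by simpa using hs), List.map_cons, List.sum_cons]
      have hc : ((P.k - 1 : ℕ) : ℤ) = (P.k : ℤ) - 1 := by omega
      rw [Nat.cast_add, hc]
      by_cases h3 : P.k = 2
      · have h5 : ¬ 2 ≤ (drop s P).k := by omega
        rw [if_neg h5] at hD
        rw [hD, h3]
        have e1 : hk 2 = 2 := by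
          unfold hk
          norm_num
        have e2 : ((2 : ℕ) : ℤ) = 2 := rfl
        rw [e1, e2]
        linarith
      · have h5 : 2 ≤ (drop s P).k := by omega
        rw [if_pos h5] at hD
        rw [hD, List.map_cons, List.sum_cons, hk']
        have e1 : hk (P.k - 1) ≤ hk P.k + 2 * ((P.k : ℤ) - 1) := by
          unfold hk
          split_ifs <;> omega
        linarith
    · rw [if_neg hs] at hk'
      have h5 : 2 ≤ (drop s P).k := by omega
      rw [if_pos h5] at hD
      rw [if_neg (show ¬ decide (s ∈ blk P) = true by simpa using hs), hD, List.map_cons,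
        List.sum_cons, hk']
      linarith

/-- The index inequality for any number of lines. -/
theorem hk_any (K : ℕ) : ∃ N : ℕ, ∀ m : ℕ, N ≤ m → ∀ l : List (Pt m), IsArr m l →
    (∀ P ∈ l, P.k ≤ K) → (1 / 2 : ℝ) * (m + 1) ≤ ((l.map fun P => hk P.k).sum : ℝ) := by
  obtain ⟨N, hN⟩ := hk_lower K (1 / 4) (by norm_num)
  refine ⟨N + 4, fun m hm l hl hK => ?_⟩
  have hm0 : (4 : ℝ) ≤ m := by
    have : 4 ≤ m := by omega
    exact_mod_cast this
  rcases Nat.even_or_odd (m + 1) with he | ho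
  · have h1 := hN m (by omega) he l hl hK
    linarith
  · obtain ⟨m', rfl⟩ : ∃ m', m = m' + 1 := ⟨m - 1, by omega⟩
    have h1 := hN m' (by omega) (by
      rcases Nat.even_or_odd (m' + 1) with h | h
      · exact h
      · exact absurd ho (by
          rw [Nat.not_odd_iff_even]
          exact h.add_odd odd_one)) (dropL 0 l) (drop_arr hl 0) (by
      intro P hP
      unfold dropL at hP
      obtain ⟨Q, hQ, rfl⟩ := List.mem_map.1 hP
      have h2 := hK Q (List.mem_filter.1 hQ).1
      have h3 : (drop 0 Q).k = if (0 : Fin (m' + 2)) ∈ blk Q then Q.k - 1 else Q.k := rfl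
      rw [h3]
      split_ifs <;> omega)
    have h2 := ho_key 0 l fun P hP => (hl.1 P hP).1
    rw [line_sum hl 0] at h2
    have h3 : (((dropL 0 l).map fun P => hk P.k).sum : ℝ) ≤ ((l.map fun P => hk P.k).sum : ℝ) +
        2 * ((m' + 1 : ℕ) : ℝ) := by exact_mod_cast h2
    rw [Nat.cast_add_one] at h3 hm0 ⊢
    linarith

private theorem ho_sum {m : ℕ} (n lam dl : ℝ) (hn : 1 < n) (h0 : 0 ≤ lam)
    (hp : ∀ k : ℕ, 2 ≤ k → (k % 2 = 0 ∨ k = 3) → lam / 2 * (n - 1) ^ 2 * hk k + dl ≤
      if k = 2 then (n - 1) ^ 2 else (n + 1) ^ 2 - 2 * (n - 1) * k) (h1 : lam ≤ 1)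
    (hdl : dl ≤ (n - 1) ^ 2) {l : List (Pt m)} (h : ∀ P ∈ l, 2 ≤ P.k) :
    lam / 2 * (n - 1) ^ 2 * ((l.map fun P => hk P.k).sum : ℝ) + dl * l.length -
        2 * (n - 1) ^ 2 * ((l.map fun P => if P.k % 2 = 1 ∧ 5 ≤ P.k then P.k ^ 2 else 0).sum : ℕ) ≤
      (l.map fun P => if P.k = 2 then (n - 1) ^ 2 else (n + 1) ^ 2 - 2 * (n - 1) * P.k).sum := by
  induction l with
  | nil => simp
  | cons P l ih =>
    have ih' := ih fun R hR => h R (List.mem_cons_of_mem _ hR)
    have h2 := h P List.mem_cons_self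
    have hx : 0 < n - 1 := by linarith
    have key : lam / 2 * (n - 1) ^ 2 * (hk P.k : ℝ) + dl -
        2 * (n - 1) ^ 2 * ((if P.k % 2 = 1 ∧ 5 ≤ P.k then P.k ^ 2 else 0 : ℕ) : ℝ) ≤
        if P.k = 2 then (n - 1) ^ 2 else (n + 1) ^ 2 - 2 * (n - 1) * P.k := by
      by_cases h5 : P.k % 2 = 1 ∧ 5 ≤ P.k
      · rw [if_pos h5, if_neg (by omega)]
        have e1 : (hk P.k : ℝ) = P.k - 1 := by
          unfold hk
          rw [if_neg (by omega)]
          push_cast
          ring
        rw [e1]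
        push_cast
        have h6 : (5 : ℝ) ≤ P.k := by exact_mod_cast h5.2
        have h7 : lam / 2 * (n - 1) ^ 2 * ((P.k : ℝ) - 1) ≤ 1 / 2 * (n - 1) ^ 2 * ((P.k : ℝ) - 1) := by
          have : 0 ≤ (n - 1) ^ 2 * ((P.k : ℝ) - 1) := mul_nonneg (sq_nonneg _) (by linarith)
          nlinarith
        have h8 : 0 ≤ (n + 1) ^ 2 - 2 * (n - 1) * P.k + (n - 1) ^ 2 / 4 * ((P.k : ℝ) ^ 2) := by
          have e2 : (n + 1) ^ 2 - 2 * (n - 1) * P.k + (n - 1) ^ 2 / 4 * ((P.k : ℝ) ^ 2) =
              ((n - 1) * P.k / 2 - (n + 1)) ^ 2 + (n - 1) ^ 2 * P.k := by ring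
          rw [e2]
          positivity
        have h9 : 0 ≤ (n - 1) ^ 2 * (((P.k : ℝ) - 5) * P.k) :=
          mul_nonneg (sq_nonneg _) (mul_nonneg (by linarith) (by linarith))
        have h10 : 0 ≤ (n - 1) ^ 2 * ((P.k : ℝ) - 5) := mul_nonneg (sq_nonneg _) (by linarith)
        nlinarith [sq_nonneg (n - 1)]
      · rw [if_neg h5]
        have h6 := hp P.k h2 (by omega)
        push_cast
        linarith
    rw [List.map_cons, List.sum_cons, List.map_cons, List.sum_cons, List.map_cons, List.sum_cons,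
      List.length_cons]
    push_cast
    push_cast at ih' key
    nlinarith

private theorem ho_pairs {m K : ℕ} {l : List (Pt m)} (hK : ∀ P ∈ l, P.k ≤ K) :
    (l.map fun P => P.k * (P.k - 1)).sum ≤ K * K * l.length := by
  induction l with
  | nil => simp
  | cons P l ih =>
    have ih' := ih fun R hR => hK R (List.mem_cons_of_mem _ hR)
    have h1 := hK P List.mem_cons_self
    rw [List.map_cons, List.sum_cons, List.length_cons]
    have h2 : P.k * (P.k - 1) ≤ K * K := Nat.mul_le_mul h1 (by omega)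
    nlinarith

/-- The Hirzebruch covers for `n ≥ 7`, any large number of lines. -/
theorem hirz_any (K : ℕ) : ∃ N : ℕ, ∀ m : ℕ, N ≤ m → ∀ l : List (Pt m), IsArr m l →
    (∀ P ∈ l, P.k ≤ K) →
    (8 * (l.map fun P => if P.k % 2 = 1 ∧ 5 ≤ P.k then P.k ^ 2 else 0).sum ≤ m + 1) →
    ∀ n : ℤ, 7 ≤ n →
      cOneSq n (m + 1) (tk l 2) l.length ((l.map fun P => P.k).sum : ℕ) ≤
        3 * cTwo n (m + 1) (tk l 2) l.length ((l.map fun P => P.k).sum : ℕ) := by
  obtain ⟨N, hN⟩ := hk_any K
  refine ⟨N + 72 * (K * K) + 2, fun m hm l hl hK hO n hn => ?_⟩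
  have h2 : ∀ P ∈ l, 2 ≤ P.k := fun P hP => (hl.1 P hP).1
  have hb := bmy_sum n (m + 1) h2
  have hL := hN m (by omega) l hl hK
  have hO' : 8 * (((l.map fun P => if P.k % 2 = 1 ∧ 5 ≤ P.k then P.k ^ 2 else 0).sum : ℕ) : ℝ) ≤
      m + 1 := by exact_mod_cast hO
  suffices hs : ((n : ℝ) - 1) ^ 2 * (m + 1) ≤
      (l.map fun P => if P.k = 2 then ((n : ℝ) - 1) ^ 2 else
        ((n : ℝ) + 1) ^ 2 - 2 * ((n : ℝ) - 1) * P.k).sum by
    have hc : (((l.map fun P => if P.k = 2 then (n - 1) ^ 2 else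
        (n + 1) ^ 2 - 2 * (n - 1) * P.k).sum : ℤ) : ℝ) =
        (l.map fun P => if P.k = 2 then ((n : ℝ) - 1) ^ 2 else
          ((n : ℝ) + 1) ^ 2 - 2 * ((n : ℝ) - 1) * P.k).sum := by
      rw [Int.cast_list_sum, List.map_map]
      congr 1
      refine List.map_congr_left fun P _ => ?_
      rw [Function.comp]
      split_ifs <;> push_cast <;> ring
    rw [← hc] at hs
    have hs' : (n - 1) ^ 2 * ((m : ℤ) + 1) ≤ (l.map fun P => if P.k = 2 then (n - 1) ^ 2 else
        (n + 1) ^ 2 - 2 * (n - 1) * P.k).sum := by exact_mod_cast hs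
    linarith
  have hn' : (7 : ℝ) ≤ n := by exact_mod_cast hn
  have hp : ∀ k : ℕ, 2 ≤ k → (k % 2 = 0 ∨ k = 3) →
      (3 / 4 : ℝ) / 2 * ((n : ℝ) - 1) ^ 2 * hk k + ((n : ℝ) - 1) ^ 2 / 36 ≤
      if k = 2 then ((n : ℝ) - 1) ^ 2 else ((n : ℝ) + 1) ^ 2 - 2 * ((n : ℝ) - 1) * k := by
    intro k hk2 hk3
    by_cases h4 : k = 2
    · rw [if_pos h4, h4]
      have e1 : hk 2 = 2 := by
        unfold hk
        norm_num
      rw [e1]
      norm_num
      nlinarith [sq_nonneg ((n : ℝ) - 1)]
    · rw [if_neg h4]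
      by_cases h5 : k = 3
      · have e1 : hk 3 = 2 := by
          unfold hk
          norm_num
        rw [h5, e1]
        norm_num
        nlinarith
      · have h6 : 4 ≤ k := by omega
        have h7 : (4 : ℝ) ≤ k := by exact_mod_cast h6
        have e1 : (hk k : ℝ) = 4 - k := by
          unfold hk
          rw [if_pos (by omega)]
          push_cast
          ring
        rw [e1]
        have h8 : 0 ≤ ((n : ℝ) - 7) * ((k : ℝ) - 4) := mul_nonneg (by linarith) (by linarith)
        have h9 : 0 ≤ ((n : ℝ) - 7) * (((n : ℝ) - 7) * ((k : ℝ) - 4)) :=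
          mul_nonneg (by linarith) h8
        nlinarith
  have h4 := ho_sum (n : ℝ) (3 / 4) (((n : ℝ) - 1) ^ 2 / 36) (by linarith) (by norm_num) hp
    (by norm_num) (by nlinarith [sq_nonneg ((n : ℝ) - 1)]) h2
  have h5 : 0 ≤ ((n : ℝ) - 1) ^ 2 := sq_nonneg _
  have h6 := mul_le_mul_of_nonneg_left hL h5
  have h7 := mul_le_mul_of_nonneg_left hO' h5
  have h8 : 0 ≤ ((n : ℝ) - 1) ^ 2 * (m + 1) := mul_nonneg h5 (by positivity)
  have h9 := ho_pairs hK
  rw [pairs_sum hl] at h9
  have h10 : (72 : ℝ) * (m + 1) ≤ l.length := by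
    rcases Nat.eq_zero_or_pos K with h0 | h0
    · subst h0
      have : 0 < (m + 1) * m := by
        apply Nat.mul_pos <;> omega
      omega
    · have hm' : 72 * (K * K) ≤ m := by omega
      have h11 : (m + 1) * (72 * (K * K)) ≤ K * K * l.length :=
        (Nat.mul_le_mul_left (m + 1) hm').trans h9
      have h12 : 0 < K * K := Nat.mul_pos h0 h0
      have h13 : 72 * (m + 1) ≤ l.length := by
        by_contra hcon
        have h14 : l.length < 72 * (m + 1) := by omega
        have h15 := Nat.mul_lt_mul_of_pos_left h14 h12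
        nlinarith
      exact_mod_cast h13
  have h11 := mul_le_mul_of_nonneg_left h10 h5
  nlinarith

end Pool.Agent.Helper81.SBA
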