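import Mathlib
import Pool.Agent.Helper81.SBA.V.Cp
import Pool.Agent.Helper81.SBA.W.Ho

/-!
# MP_872606_gt: symplectic line arrangements with bounded multiplicities

A symplectic line arrangement of `d = m + 1` lines is given by its braid monodromy factorisation
`Δ² = ∏ g_j T_{k_j} g_j⁻¹` in Artin's braid group.
-/

set_option autoImplicit false

namespace Pool.Agent.Results.MP_872606_gt.BoundedMultiplicities

open Pool.Agent.Helper81.SBA

/-- `4 - k` for even `k`, `k - 1` for odd `k`. -/
def ind (k : ℕ) : ℤ := if k % 2 = 0 then 4 - k else k - 1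

/-- **Main theorem.** For all `K`, `ε > 0` and every factorisation `Δ² = ∏ g_j T_{k_j} g_j⁻¹` of the
full twist on `d = m + 1` strands, `d` large, into conjugates of full twists of `k_j ≤ K`
adjacent strands, the sum of `k - 1` over the points of odd multiplicity `k` and of `4 - k` over the
points of even multiplicity `k` is at least `(3 - ε) d` if `d` is even:
`t_2 + t_3 + 2 t_5 + 3 t_7 + ⋯ ≥ t_6 + 2 t_8 + ⋯ + (3 - ε) d / 2`, and at least `d / 2` for any `d`.

If the sum of `k ^ 2` over the points of odd multiplicity `k ≥ 5` is at most `d / 8`, then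
`c_1² ≤ 3 c_2` for the Hirzebruch covers with `n ≥ 7`, and with `n ≥ 5` if all multiplicities are
even; if `d` is even, then also `c_1² + x² d / 100 ≤ 3 c_2` for the orbifold Chern numbers, if there
is a `λ` in `[3/4, 1]` such that the weights `z` of the exceptional spheres satisfy
`λ x² ≤ y² - 3 x y + 3 x²` over the triple points and `y ≤ (1 + λ / 2) x` over the points of even
multiplicity at least six, where `y = 2 - z`. -/
theorem result (K : ℕ) (ε : ℝ) (hε : 0 < ε) : ∃ N : ℕ, ∀ m : ℕ, N ≤ m →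
    ∀ l : List (Pt m), IsArr m l → (∀ P ∈ l, P.k ≤ K) →
      (Even (m + 1) → (3 - ε) * (m + 1) ≤ ((l.map fun P => ind P.k).sum : ℝ)) ∧
      (1 / 2 : ℝ) * (m + 1) ≤ ((l.map fun P => ind P.k).sum : ℝ) ∧
      ((8 * (l.map fun P => if P.k % 2 = 1 ∧ 5 ≤ P.k then P.k ^ 2 else 0).sum ≤ m + 1) →
        (∀ n : ℤ, (7 ≤ n ∨ 5 ≤ n ∧ ∀ P ∈ l, P.k % 2 = 0) →
          cOneSq n (m + 1) (tk l 2) l.length ((l.map fun P => P.k).sum : ℕ) ≤
            3 * cTwo n (m + 1) (tk l 2) l.length ((l.map fun P => P.k).sum : ℕ)) ∧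
        (Even (m + 1) → ∀ (x lam : ℝ) (z : Fin l.length → ℝ) (Bl : Finset (Fin l.length)),
          0 < x → 3 / 4 ≤ lam → lam ≤ 1 → (∀ j, j ∉ Bl → (l.get j).k = 2) →
          (∀ j ∈ Bl, (l.get j).k = 3 →
            lam * x ^ 2 ≤ (2 - z j) ^ 2 - 3 * x * (2 - z j) + 3 * x ^ 2) →
          (∀ j ∈ Bl, (l.get j).k % 2 = 0 → 6 ≤ (l.get j).k → 2 - z j ≤ (1 + lam / 2) * x) →
            orbOneSq l (fun _ => x) z Bl + x ^ 2 * (m + 1) / 100 ≤
              3 * orbTwo l (fun _ => x) z Bl)) := by
  obtain ⟨N1, h1⟩ := main_all K ε hε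
  obtain ⟨N2, h2⟩ := hk_any K
  obtain ⟨N3, h3⟩ := hirz_any K
  refine ⟨max N1 (max N2 (max N3 (30 * (K + 4) ^ 3))), fun m hm l hl hK => ?_⟩
  have m1 : N1 ≤ m := le_trans (le_max_left _ _) hm
  have m2 : N2 ≤ m := le_trans (le_trans (le_max_left _ _) (le_max_right _ _)) hm
  have m3 : N3 ≤ m := le_trans (le_trans (le_trans (le_max_left _ _) (le_max_right _ _))
    (le_max_right _ _)) hm
  have m4 : 30 * (K + 4) ^ 3 ≤ m := le_trans (le_trans (le_trans (le_max_right _ _)
    (le_max_right _ _)) (le_max_right _ _)) hm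
  refine ⟨fun he => (h1 m m1 he l hl hK).1, h2 m m2 l hl hK, fun hO => ⟨?_, ?_⟩⟩
  · rintro n (hn | ⟨hn, he⟩)
    · exact h3 m m3 l hl hK hO n hn
    · refine main_even (K := K + 4) (by omega) (by omega) hl (fun P hP => (hK P hP).trans (by omega))
        ?_ n hn
      have h0 : tO l = 0 := by
        unfold tO
        rw [List.countP_eq_zero]
        intro P hP
        have := he P hP
        simp only [decide_eq_true_eq]
        omega
      rw [h0, mul_zero]
      exact Nat.zero_le _
  · intro he x lam z Bl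
    exact (h1 m m1 he l hl hK).2 hO x lam z Bl

end Pool.Agent.Results.MP_872606_gt.BoundedMultiplicities
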