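import Pool.Agent.Helper81.SBA.W.Ix

/-!
# Hirzebruch covers of arrangements with bounded multiplicities
-/

set_option autoImplicit false

open Module Finset

namespace Pool.Agent.Helper81.SBA

private theorem hz_sum {m : ℕ} (n lam : ℝ) (h0 : 0 ≤ lam) (h1 : lam ≤ 1) (hn : 1 < n)
    {l : List (Pt m)} (h : ∀ P ∈ l, 2 ≤ P.k)
    (h3 : ∀ P ∈ l, P.k = 3 → lam * (n - 1) ^ 2 ≤
      (n + 1) ^ 2 - 3 * (n - 1) * (n + 1) + 3 * (n - 1) ^ 2)
    (h6 : n + 1 ≤ (1 + lam / 2) * (n - 1)) :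
    lam / 2 * (n - 1) ^ 2 * ((l.map fun P => hk P.k).sum : ℝ) -
        (n - 1) ^ 2 / 4 * ((l.map fun P => if P.k % 2 = 1 ∧ 5 ≤ P.k then P.k ^ 2 else 0).sum : ℕ) ≤
      (l.map fun P => if P.k = 2 then (n - 1) ^ 2 else (n + 1) ^ 2 - 2 * (n - 1) * P.k).sum := by
  induction l with
  | nil => simp
  | cons P l ih =>
    have ih' := ih (fun R hR => h R (List.mem_cons_of_mem _ hR))
      fun R hR => h3 R (List.mem_cons_of_mem _ hR)
    have h2 := h P List.mem_cons_self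
    have hx : 0 < n - 1 := by linarith
    have key : lam / 2 * (n - 1) ^ 2 * (hk P.k : ℝ) -
        (n - 1) ^ 2 / 4 * ((if P.k % 2 = 1 ∧ 5 ≤ P.k then P.k ^ 2 else 0 : ℕ) : ℝ) ≤
        if P.k = 2 then (n - 1) ^ 2 else (n + 1) ^ 2 - 2 * (n - 1) * P.k := by
      by_cases hk2 : P.k = 2
      · rw [if_pos hk2, hk2]
        have e1 : hk 2 = 2 := by
          unfold hk
          norm_num
        rw [e1]
        norm_num
        nlinarith [sq_nonneg (n - 1)]
      · rw [if_neg hk2]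
        have h4 := orb_point P.k h2 (n - 1) (n + 1) lam hx h0 h1 (h3 P List.mem_cons_self)
          fun _ _ => h6
        by_cases h5 : P.k % 2 = 1 ∧ 5 ≤ P.k
        · rw [if_pos h5] at h4 ⊢
          push_cast
          nlinarith
        · rw [if_neg h5] at h4 ⊢
          push_cast
          nlinarith
    rw [List.map_cons, List.sum_cons, List.map_cons, List.sum_cons, List.map_cons, List.sum_cons]
    push_cast
    push_cast at ih' key
    nlinarith

/-- The Hirzebruch covers: all `n ≥ 7`, and all `n ≥ 5` if there are no triple points. -/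
theorem hirz_gen (K : ℕ) : ∃ N : ℕ, ∀ m : ℕ, N ≤ m → Even (m + 1) → ∀ l : List (Pt m), IsArr m l →
    (∀ P ∈ l, P.k ≤ K) →
    (8 * (l.map fun P => if P.k % 2 = 1 ∧ 5 ≤ P.k then P.k ^ 2 else 0).sum ≤ m + 1) →
    ∀ n : ℤ, (7 ≤ n ∨ 5 ≤ n ∧ ∀ P ∈ l, P.k ≠ 3) →
      cOneSq n (m + 1) (tk l 2) l.length ((l.map fun P => P.k).sum : ℕ) ≤
        3 * cTwo n (m + 1) (tk l 2) l.length ((l.map fun P => P.k).sum : ℕ) := by
  obtain ⟨N, hN⟩ := hk_lower K (1 / 10) (by norm_num)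
  refine ⟨N, fun m hm he l hl hK hO n hn => ?_⟩
  have h2 : ∀ P ∈ l, 2 ≤ P.k := fun P hP => (hl.1 P hP).1
  have hb := bmy_sum n (m + 1) h2
  have hL := hN m hm he l hl hK
  have hO' : 8 * (((l.map fun P => if P.k % 2 = 1 ∧ 5 ≤ P.k then P.k ^ 2 else 0).sum : ℕ) : ℝ) ≤
      m + 1 := by exact_mod_cast hO
  suffices hs : ((n : ℝ) - 1) ^ 2 * (m + 1) ≤
      (l.map fun P => if P.k = 2 then ((n : ℝ) - 1) ^ 2 else
        ((n : ℝ) + 1) ^ 2 - 2 * ((n : ℝ) - 1) * P.k).sum by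
    have hc : (((l.map fun P => if P.k = 2 then (n - 1) ^ 2 else
        (n + 1) ^ 2 - 2 * (n - 1) * P.k).sum : ℤ) : ℝ) =
        (l.map fun P => if P.k = 2 then ((n : ℝ) - 1) ^ 2 else
          ((n : ℝ) + 1) ^ 2 - 2 * ((n : ℝ) - 1) * P.k).sum := by
      rw [Int.cast_list_sum, List.map_map]
      congr 1
      refine List.map_congr_left fun P _ => ?_
      rw [Function.comp]
      split_ifs <;> push_cast <;> ring
    rw [← hc] at hs
    have hs' : (n - 1) ^ 2 * ((m : ℤ) + 1) ≤ (l.map fun P => if P.k = 2 then (n - 1) ^ 2 else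
        (n + 1) ^ 2 - 2 * (n - 1) * P.k).sum := by exact_mod_cast hs
    linarith
  have hd : (0 : ℝ) ≤ m + 1 := by positivity
  rcases hn with hn | ⟨hn, h3⟩
  · have hn' : (7 : ℝ) ≤ n := by exact_mod_cast hn
    have h4 := hz_sum (n : ℝ) (3 / 4) (by norm_num) (by norm_num) (by linarith) h2
      (fun P _ _ => by nlinarith [sq_nonneg ((n : ℝ) - 5)]) (by linarith)
    have h5 : 0 ≤ ((n : ℝ) - 1) ^ 2 := sq_nonneg _
    have h6 := mul_le_mul_of_nonneg_left hL h5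
    have h7 := mul_le_mul_of_nonneg_left hO' h5
    have h8 : 0 ≤ ((n : ℝ) - 1) ^ 2 * (m + 1) := mul_nonneg h5 hd
    nlinarith
  · have hn' : (5 : ℝ) ≤ n := by exact_mod_cast hn
    have h4 := hz_sum (n : ℝ) 1 (by norm_num) (by norm_num) (by linarith) h2
      (fun P hP hP3 => absurd hP3 (h3 P hP)) (by linarith)
    have h5 : 0 ≤ ((n : ℝ) - 1) ^ 2 := sq_nonneg _
    have h6 := mul_le_mul_of_nonneg_left hL h5
    have h7 := mul_le_mul_of_nonneg_left hO' h5
    have h8 : 0 ≤ ((n : ℝ) - 1) ^ 2 * (m + 1) := mul_nonneg h5 hd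
    nlinarith

end Pool.Agent.Helper81.SBA
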