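import Pool.Agent.Helper81.SBA.Md

/-!
# The invariants of a point of any multiplicity
-/

set_option autoImplicit false

open Module Finset

namespace Pool.Agent.Helper81.SBA

variable {m : ℕ}

/-! ### The action of a full twist -/

/-- PROOF. Induction on `n`: `run m a (n+1) = run m a n * sg m (a+n)`, so the value at `b` is the value
of `rep (run m a n)` at `b + om v_{a+n} b • v_{a+n}` (`rep_sigma`, `trv_apply`), and
`om v_{a+i'} v_{a+n}` is `1` if `i' + 1 = n` and `0` for the other `i' < n` (`om_vb`). -/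
theorem run_apply {a n : ℕ} (h : a + n ≤ m) (b : Fin m → ℝ) :
    rep ℝ m (run m a n) b = b + ∑ i ∈ range n,
      (∑ i' ∈ Ico i n, om ℝ m (vb ℝ m (a + i')) b) • vb ℝ m (a + i) := by
  induction n generalizing b with
  | zero =>
    rw [Finset.sum_range_zero, add_zero]
    change rep ℝ m 1 b = b
    rw [map_one]
    rfl
  | succ n ih =>
    have hn : a + n < m := by omega
    have hs : rep ℝ m (sg m (a + n)) = trv (vb ℝ m (a + n)) := by
      unfold sg
      rw [dif_pos hn, rep_sigma]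
    have h1 : rep ℝ m (run m a (n + 1)) b =
        rep ℝ m (run m a n) (rep ℝ m (sg m (a + n)) b) := by
      change rep ℝ m (run m a n * sg m (a + n)) b = _
      rw [map_mul]
      rfl
    have h2 : ∀ i ∈ range n, (∑ i' ∈ Ico i n, om ℝ m (vb ℝ m (a + i')) (vb ℝ m (a + n))) •
        vb ℝ m (a + i) = vb ℝ m (a + i) := by
      intro i hi
      have hi' : i < n := Finset.mem_range.1 hi
      rw [Finset.sum_eq_single (n - 1), om_vb (by omega) hn, if_pos (by omega), one_smul]
      · intro i' hi1 hi2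
        rw [Finset.mem_Ico] at hi1
        rw [om_vb (by omega) hn, if_neg (by omega), if_neg (by omega)]
      · intro h
        exact absurd (Finset.mem_Ico.2 ⟨by omega, by omega⟩) h
    rw [h1, hs, trv_apply, map_add, map_smul, ih (by omega) b, ih (by omega) (vb ℝ m (a + n)),
      Finset.sum_congr rfl h2, Finset.sum_range_succ (n := n)]
    have h3 : ∀ i ∈ range n, (∑ i' ∈ Ico i (n + 1), om ℝ m (vb ℝ m (a + i')) b) •
        vb ℝ m (a + i) = (∑ i' ∈ Ico i n, om ℝ m (vb ℝ m (a + i')) b) • vb ℝ m (a + i) +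
          om ℝ m (vb ℝ m (a + n)) b • vb ℝ m (a + i) := by
      intro i hi
      rw [Finset.sum_Ico_succ_top (Finset.mem_range.1 hi).le, add_smul]
    have h4 : ∑ i' ∈ Ico n (n + 1), om ℝ m (vb ℝ m (a + i')) b =
        om ℝ m (vb ℝ m (a + n)) b := by
      rw [Finset.sum_Ico_succ_top le_rfl, Finset.Ico_self, Finset.sum_empty, zero_add]
    rw [Finset.sum_congr rfl h3, Finset.sum_add_distrib, h4, ← Finset.smul_sum, smul_add]
    abel

/-- PROOF. `run_apply` and `om_vb`: `om v_{a+i'} v_{a+i}` is `1` for `i' + 1 = i`, `-1` for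
`i' = i + 1`. -/
theorem run_vb {a n i : ℕ} (h : a + n ≤ m) (hi : i < n) :
    rep ℝ m (run m a n) (vb ℝ m (a + i)) =
      if i + 1 < n then - vb ℝ m (a + (i + 1)) else ∑ q ∈ range n, vb ℝ m (a + q) := by
  have hterm : ∀ i' ∈ range n, om ℝ m (vb ℝ m (a + i')) (vb ℝ m (a + i)) =
      (if i' + 1 = i then 1 else 0) - (if i' = i + 1 then 1 else 0) := by
    intro i' hi'
    rw [Finset.mem_range] at hi'
    rw [om_vb (by omega) (by omega)]
    by_cases h1 : i' + 1 = i
    · rw [if_pos (by omega), if_pos h1, if_neg (by omega), sub_zero]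
    · by_cases h2 : i' = i + 1
      · rw [if_neg (by omega), if_pos (by omega), if_neg h1, if_pos h2, zero_sub]
      · rw [if_neg (by omega), if_neg (by omega), if_neg h1, if_neg h2, sub_zero]
  have hg : ∀ j ∈ range n, ∑ i' ∈ Ico j n, om ℝ m (vb ℝ m (a + i')) (vb ℝ m (a + i)) =
      (if j < i then (1 : ℝ) else 0) - (if i + 1 < n ∧ j ≤ i + 1 then 1 else 0) := by
    intro j hj
    rw [Finset.mem_range] at hj
    rw [Finset.sum_congr rfl fun i' hi' => hterm i' (Finset.mem_range.2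
      (Finset.mem_Ico.1 hi').2), Finset.sum_sub_distrib, Finset.sum_ite_eq']
    congr 1
    · rcases i with _ | i₀
      · rw [if_neg (by omega)]
        exact Finset.sum_eq_zero fun i' _ => if_neg (by omega)
      · have h1 : ∀ i' ∈ Ico j n, (if i' + 1 = i₀ + 1 then (1 : ℝ) else 0) =
            if i' = i₀ then 1 else 0 := by
          intro i' _
          by_cases h2 : i' = i₀
          · rw [if_pos (by omega), if_pos h2]
          · rw [if_neg (by omega), if_neg h2]
        rw [Finset.sum_congr rfl h1, Finset.sum_ite_eq']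
        by_cases h3 : j < i₀ + 1
        · rw [if_pos h3, if_pos (Finset.mem_Ico.2 ⟨by omega, by omega⟩)]
        · rw [if_neg h3, if_neg (fun h4 => h3 (by rw [Finset.mem_Ico] at h4; omega))]
    · by_cases h3 : i + 1 < n ∧ j ≤ i + 1
      · rw [if_pos h3, if_pos (Finset.mem_Ico.2 ⟨h3.2, h3.1⟩)]
      · rw [if_neg h3, if_neg (fun h4 => h3 (by rw [Finset.mem_Ico] at h4; omega))]
  rw [run_apply h, Finset.sum_congr rfl fun j hj => by rw [hg j hj]]
  by_cases hin : i + 1 < n
  · rw [if_pos hin]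
    have h3 : ∀ j ∈ range n, ((if j < i then (1 : ℝ) else 0) -
        (if i + 1 < n ∧ j ≤ i + 1 then 1 else 0)) • vb ℝ m (a + j) =
        (if j = i then -vb ℝ m (a + j) else 0) +
          (if j = i + 1 then -vb ℝ m (a + j) else 0) := by
      intro j _
      by_cases h1 : j < i
      · rw [if_pos h1, if_pos ⟨hin, by omega⟩, if_neg (by omega), if_neg (by omega), sub_self,
          zero_smul, add_zero]
      · by_cases h2 : j = i
        · rw [if_neg h1, if_pos ⟨hin, by omega⟩, if_pos h2, if_neg (by omega), zero_sub,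
            neg_smul, one_smul, add_zero]
        · by_cases h4 : j = i + 1
          · rw [if_neg h1, if_pos ⟨hin, by omega⟩, if_neg h2, if_pos h4, zero_sub,
              neg_smul, one_smul, zero_add]
          · rw [if_neg h1, if_neg (by omega), if_neg h2, if_neg h4, sub_self, zero_smul,
              add_zero]
    rw [Finset.sum_congr rfl h3, Finset.sum_add_distrib, Finset.sum_ite_eq', Finset.sum_ite_eq',
      if_pos (Finset.mem_range.2 hi), if_pos (Finset.mem_range.2 hin)]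
    abel
  · rw [if_neg hin]
    obtain ⟨n', rfl⟩ : ∃ n', n = n' + 1 := ⟨n - 1, by omega⟩
    have hi' : i = n' := by omega
    subst hi'
    have h3 : ∀ j ∈ range i, ((if j < i then (1 : ℝ) else 0) -
        (if i + 1 < i + 1 ∧ j ≤ i + 1 then 1 else 0)) • vb ℝ m (a + j) = vb ℝ m (a + j) := by
      intro j hj
      rw [if_pos (Finset.mem_range.1 hj), if_neg (by omega), sub_zero, one_smul]
    rw [Finset.sum_range_succ, Finset.sum_congr rfl h3, Finset.sum_range_succ,
      if_neg (lt_irrefl i), if_neg (by omega), sub_self, zero_smul, add_zero]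
    abel

private theorem twist_even_vec (f : ℕ → Fin m → ℝ) (e : ℕ) :
    ∑ j ∈ range (2 * e + 1), (-1 : ℝ) ^ j • f j + ∑ j ∈ range (2 * e + 1), f j =
      (2 : ℝ) • ∑ q ∈ range (e + 1), f (2 * q) := by
  induction e with
  | zero =>
    simp only [mul_zero, zero_add, Finset.sum_range_one, pow_zero, one_smul]
    rw [two_smul]
  | succ e ih =>
    rw [Finset.sum_range_succ (fun q => f (2 * q)) (e + 1), smul_add, ← ih]
    have h1 : 2 * (e + 1) + 1 = 2 * e + 1 + 1 + 1 := by omega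
    have h2 : (-1 : ℝ) ^ (2 * e + 1) = -1 := by
      rw [pow_succ, pow_mul]; norm_num
    have h3 : (-1 : ℝ) ^ (2 * e + 1 + 1) = 1 := by
      rw [pow_succ, h2]; norm_num
    have h4 : 2 * (e + 1) = 2 * e + 1 + 1 := by omega
    rw [h1, Finset.sum_range_succ _ (2 * e + 1 + 1), Finset.sum_range_succ _ (2 * e + 1),
      Finset.sum_range_succ _ (2 * e + 1 + 1), Finset.sum_range_succ _ (2 * e + 1), h2, h3, h4]
    module

private theorem twist_even_one (e : ℕ) : ∑ i ∈ range (2 * e + 1), (-1 : ℝ) ^ i = 1 := by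
  induction e with
  | zero => simp
  | succ e ih =>
    have h1 : 2 * (e + 1) + 1 = 2 * e + 1 + 1 + 1 := by omega
    rw [h1, Finset.sum_range_succ, Finset.sum_range_succ, ih, pow_succ _ (2 * e + 1)]
    ring

private theorem twist_even_scal (β : ℕ → ℝ) (e : ℕ) :
    ∑ i ∈ range (2 * e + 1), (-1 : ℝ) ^ i * ∑ i' ∈ Ico i (2 * e + 1), β i' =
      ∑ q ∈ range (e + 1), β (2 * q) := by
  induction e with
  | zero => simp
  | succ e ih =>
    rw [Finset.sum_range_succ (fun q => β (2 * q)) (e + 1), ← ih]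
    have h1 : 2 * (e + 1) + 1 = 2 * e + 1 + 1 + 1 := by omega
    have h2 : (-1 : ℝ) ^ (2 * e + 1) = -1 := by
      rw [pow_succ, pow_mul]; norm_num
    have h3 : (-1 : ℝ) ^ (2 * e + 1 + 1) = 1 := by
      rw [pow_succ, h2]; norm_num
    have h4 : 2 * (e + 1) = 2 * e + 1 + 1 := by omega
    have h5 : ∀ i ∈ range (2 * e + 1), (-1 : ℝ) ^ i * ∑ i' ∈ Ico i (2 * e + 1 + 1 + 1), β i' =
        (-1 : ℝ) ^ i * ∑ i' ∈ Ico i (2 * e + 1), β i' +
          (-1 : ℝ) ^ i * (β (2 * e + 1) + β (2 * e + 1 + 1)) := by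
      intro i hi
      have hi' := Finset.mem_range.1 hi
      rw [Finset.sum_Ico_succ_top (by omega), Finset.sum_Ico_succ_top (by omega)]
      ring
    have h7 : ∑ i' ∈ Ico (2 * e + 1 + 1) (2 * e + 1 + 1 + 1), β i' = β (2 * e + 1 + 1) := by
      rw [Finset.sum_Ico_succ_top le_rfl, Finset.Ico_self, Finset.sum_empty, zero_add]
    have h6 : ∑ i' ∈ Ico (2 * e + 1) (2 * e + 1 + 1 + 1), β i' =
        β (2 * e + 1) + β (2 * e + 1 + 1) := by
      rw [Finset.sum_eq_sum_Ico_succ_bot (by omega), h7]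
    rw [h1, Finset.sum_range_succ _ (2 * e + 1 + 1), Finset.sum_range_succ _ (2 * e + 1),
      Finset.sum_congr rfl h5, Finset.sum_add_distrib, ← Finset.sum_mul, twist_even_one, h2, h3, h4,
      h6, h7]
    ring

/-- PROOF. `R = rep (run m a n)`, `n = 2 e - 1`, `k = 2 e`; `R ^ j b = b + ∑_{j' < j} R ^ j' u` with
`u = R b - b = ∑ γ_i v_{a+i}`, `γ_i = ∑_{i' ≥ i} om v_{a+i'} b` (`run_apply`). Let
`N = ∑_{j < k} R ^ j`. By `run_vb` `R ^ j v_a = (-1)^j v_{a+j}` for `j < n`, and
`R ^ n v_a = (-1)^(n-1) ∑ v_{a+q} = ∑ v_{a+q}`, so `N v_a = ∑ (-1)^j v_{a+j} + ∑ v_{a+j} = 2 c`,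
`c = ∑_{q < e} v_{a+2q}`. Also `R ^ k v_a = R (∑ v_{a+q}) = - (∑ v_{a+q} - v_a) + ∑ v_{a+q} = v_a`, so
`N R v_a = N v_a`, and `v_{a+i} = (-1)^i R ^ i v_a`: `N v_{a+i} = (-1)^i 2 c`. So
`N u = (∑ (-1)^i γ_i) 2 c` and `∑_i (-1)^i ∑_{i' ≥ i} β_{i'} = ∑_{i'} β_{i'} ∑_{i ≤ i'} (-1)^i` is the sum of
`β_{i'}` over the even `i'`, which is `om c b`. -/
theorem twist_even {a e : ℕ} (he : 1 ≤ e) (h : a + 2 * e ≤ m + 1) (b : Fin m → ℝ) :
    rep ℝ m (twist m a (2 * e)) b = b +
      (2 * om ℝ m (∑ q ∈ range e, vb ℝ m (a + 2 * q)) b) •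
        ∑ q ∈ range e, vb ℝ m (a + 2 * q) := by
  obtain ⟨e, rfl⟩ : ∃ e', e = e' + 1 := ⟨e - 1, by omega⟩
  obtain ⟨R, hR⟩ : ∃ R, R = rep ℝ m (run m a (2 * e + 1)) := ⟨_, rfl⟩
  have e0 : rep ℝ m (twist m a (2 * (e + 1))) = R ^ (2 * e + 2) := by
    unfold twist
    rw [map_pow, hR]
    rfl
  rw [e0]
  have hu : R b - b = ∑ i ∈ range (2 * e + 1),
      (∑ i' ∈ Ico i (2 * e + 1), om ℝ m (vb ℝ m (a + i')) b) • vb ℝ m (a + i) := by
    rw [hR, run_apply (by omega) b, add_sub_cancel_left]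
  have hshift : ∀ i, i + 1 < 2 * e + 1 → R (vb ℝ m (a + i)) = - vb ℝ m (a + (i + 1)) := by
    intro i hi
    rw [hR, run_vb (by omega) (by omega), if_pos hi]
  have hlast : R (vb ℝ m (a + 2 * e)) = ∑ q ∈ range (2 * e + 1), vb ℝ m (a + q) := by
    rw [hR, run_vb (by omega) (by omega), if_neg (by omega)]
  have hsum : R (∑ q ∈ range (2 * e + 1), vb ℝ m (a + q)) = vb ℝ m a := by
    have h3 : R (∑ q ∈ range (2 * e), vb ℝ m (a + q)) =
        -∑ q ∈ range (2 * e), vb ℝ m (a + (q + 1)) := by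
      rw [map_sum, ← Finset.sum_neg_distrib]
      refine Finset.sum_congr rfl fun i hi => hshift i ?_
      have := Finset.mem_range.1 hi
      omega
    rw [Finset.sum_range_succ, map_add, h3, hlast, Finset.sum_range_succ', add_zero]
    abel
  have hva : ∀ j, j < 2 * e + 1 → (R ^ j) (vb ℝ m a) = (-1 : ℝ) ^ j • vb ℝ m (a + j) := by
    intro j
    induction j with
    | zero =>
      intro _
      rw [pow_zero, pow_zero, one_smul]
      rfl
    | succ j ih =>
      intro hj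
      rw [pow_succ', LinearEquiv.mul_apply, ih (by omega), map_smul, hshift j hj, pow_succ,
        smul_neg, mul_neg, mul_one, neg_smul]
  have hs : (R ^ (2 * e + 1)) (vb ℝ m a) = ∑ q ∈ range (2 * e + 1), vb ℝ m (a + q) := by
    rw [pow_succ', LinearEquiv.mul_apply, hva (2 * e) (by omega), map_smul, hlast, pow_mul]
    norm_num
  have hk : (R ^ (2 * e + 2)) (vb ℝ m a) = vb ℝ m a := by
    rw [pow_succ', LinearEquiv.mul_apply, hs, hsum]
  have hN0 : ∑ j ∈ range (2 * e + 2), (R ^ j) (vb ℝ m a) =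
      (2 : ℝ) • ∑ q ∈ range (e + 1), vb ℝ m (a + 2 * q) := by
    rw [Finset.sum_range_succ, hs, ← twist_even_vec (fun q => vb ℝ m (a + q)) e]
    congr 1
    exact Finset.sum_congr rfl fun j hj => hva j (Finset.mem_range.1 hj)
  have hNi : ∀ i, ∑ j ∈ range (2 * e + 2), (R ^ j) ((R ^ i) (vb ℝ m a)) =
      (2 : ℝ) • ∑ q ∈ range (e + 1), vb ℝ m (a + 2 * q) := by
    intro i
    induction i with
    | zero => rw [pow_zero]; exact hN0
    | succ i ih =>
      have hx : (R ^ (2 * e + 2)) ((R ^ i) (vb ℝ m a)) = (R ^ i) (vb ℝ m a) := by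
        rw [← LinearEquiv.mul_apply, ← pow_add, add_comm, pow_add, LinearEquiv.mul_apply, hk]
      have h1 : ∀ j, (R ^ j) ((R ^ (i + 1)) (vb ℝ m a)) = (R ^ (j + 1)) ((R ^ i) (vb ℝ m a)) := by
        intro j
        rw [← LinearEquiv.mul_apply, ← LinearEquiv.mul_apply, ← pow_add, ← pow_add]
        congr 2
        omega
      rw [Finset.sum_congr rfl fun j _ => h1 j]
      have h2 := Finset.sum_range_succ' (fun j => (R ^ j) ((R ^ i) (vb ℝ m a))) (2 * e + 2)
      rw [Finset.sum_range_succ, ih, hx, pow_zero] at h2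
      exact (add_right_cancel h2).symm
  have hNv : ∀ i, i < 2 * e + 1 → ∑ j ∈ range (2 * e + 2), (R ^ j) (vb ℝ m (a + i)) =
      (-1 : ℝ) ^ i • (2 : ℝ) • ∑ q ∈ range (e + 1), vb ℝ m (a + 2 * q) := by
    intro i hi
    have h1 : vb ℝ m (a + i) = (-1 : ℝ) ^ i • (R ^ i) (vb ℝ m a) := by
      rw [hva i hi, smul_smul, ← mul_pow]
      norm_num
    rw [h1]
    simp only [map_smul]
    rw [← Finset.smul_sum, hNi]
  have hpow : ∀ j, (R ^ j) b = b + ∑ j' ∈ range j, (R ^ j') (R b - b) := by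
    intro j
    induction j with
    | zero =>
      rw [pow_zero, Finset.sum_range_zero, add_zero]
      rfl
    | succ j ih =>
      rw [Finset.sum_range_succ, ← add_assoc, ← ih, ← map_add, add_sub_cancel, pow_succ,
        LinearEquiv.mul_apply]
  rw [hpow, hu]
  congr 1
  simp only [map_sum, map_smul, LinearMap.sum_apply]
  rw [Finset.sum_comm]
  have h4 : ∀ i ∈ range (2 * e + 1), ∑ j ∈ range (2 * e + 2),
      (∑ i' ∈ Ico i (2 * e + 1), om ℝ m (vb ℝ m (a + i')) b) • (R ^ j) (vb ℝ m (a + i)) =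
      ((-1 : ℝ) ^ i * ∑ i' ∈ Ico i (2 * e + 1), om ℝ m (vb ℝ m (a + i')) b) •
        (2 : ℝ) • ∑ q ∈ range (e + 1), vb ℝ m (a + 2 * q) := by
    intro i hi
    rw [← Finset.smul_sum, hNv i (Finset.mem_range.1 hi), smul_smul, mul_comm]
  rw [Finset.sum_congr rfl h4, ← Finset.sum_smul,
    twist_even_scal (fun i' => om ℝ m (vb ℝ m (a + i')) b) e, smul_smul, mul_comm]

/-- PROOF. `R = rep (run m a n)`, `n = 2 e`, `k = 2 e + 1`, `u = R b - b = ∑ γ_i v_{a+i}` as in
`twist_even`. `R ^ k = -1` on the span of the `v_{a+i}`: `R ^ j v_a = (-1)^j v_{a+j}` for `j < n`,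
`R ^ n v_a = - ∑ v_{a+q}`, `R ^ k v_a = (∑ v_{a+q} - v_a) - ∑ v_{a+q} = - v_a`, and
`v_{a+i} = (-1)^i R ^ i v_a`. From `R ^ k b = b` we get `R ^ k (R b) = R b`, so
`u = R b - b = R ^ k (R b - b) = R ^ k u = - u`, `u = 0`. The `v_{a+i}` are independent, so all
`γ_i = 0` and `om v_{a+i} b = γ_i - γ_{i+1} = 0`. -/
theorem twist_odd {a e : ℕ} (h : a + (2 * e + 1) ≤ m + 1) (b : Fin m → ℝ)
    (hb : rep ℝ m (twist m a (2 * e + 1)) b = b) :
    ∀ i < 2 * e, om ℝ m (vb ℝ m (a + i)) b = 0 := by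
  intro i hi
  have hn : a + 2 * e ≤ m := by omega
  obtain ⟨R, hR⟩ : ∃ R : (Fin m → ℝ) ≃ₗ[ℝ] (Fin m → ℝ), R = rep ℝ m (run m a (2 * e)) := ⟨_, rfl⟩
  have hb1 : (R ^ (2 * e + 1)) b = b := by
    rw [hR, ← map_pow]
    exact hb
  have hs : ∀ (j : ℕ) (x : Fin m → ℝ), (R ^ (j + 1)) x = R ((R ^ j) x) := by
    intro j x
    rw [pow_succ']
    rfl
  have hcomm : ∀ (j j' : ℕ) (x : Fin m → ℝ), (R ^ j) ((R ^ j') x) = (R ^ j') ((R ^ j) x) := by
    intro j j' x
    change (R ^ j * R ^ j') x = (R ^ j' * R ^ j) x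
    rw [← pow_add, ← pow_add, add_comm]
  have hv : ∀ j, j < 2 * e → R (vb ℝ m (a + j)) =
      if j + 1 < 2 * e then - vb ℝ m (a + (j + 1)) else ∑ q ∈ range (2 * e), vb ℝ m (a + q) := by
    intro j hj
    rw [hR]
    exact run_vb hn hj
  -- powers of `R` on the first vector
  have hp : ∀ j, j < 2 * e → (R ^ j) (vb ℝ m a) = ((-1 : ℝ) ^ j) • vb ℝ m (a + j) := by
    intro j
    induction j with
    | zero =>
      intro _
      rw [pow_zero, pow_zero, one_smul, add_zero]
      rfl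
    | succ j ih =>
      intro hj
      rw [hs, ih (by omega), map_smul, hv j (by omega), if_pos hj, pow_succ, smul_neg, mul_neg,
        mul_one, neg_smul]
  have hlast : (R ^ (2 * e)) (vb ℝ m a) = - ∑ q ∈ range (2 * e), vb ℝ m (a + q) := by
    obtain ⟨n, hn2⟩ : ∃ n, 2 * e = n + 1 := ⟨2 * e - 1, by omega⟩
    have h1 : (R ^ n) (vb ℝ m a) = ((-1 : ℝ) ^ n) • vb ℝ m (a + n) := hp n (by omega)
    have h2 : ((-1 : ℝ) ^ n) = -1 := by
      have h3 : Odd n := by
        rw [Nat.odd_iff]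
        omega
      exact h3.neg_one_pow
    have h4 : (R ^ (2 * e)) (vb ℝ m a) = R ((R ^ n) (vb ℝ m a)) := by
      rw [← hs, ← hn2]
    rw [h4, h1, h2, map_smul, hv n (by omega), if_neg (by omega), neg_smul, one_smul]
  have hk0 : (R ^ (2 * e + 1)) (vb ℝ m a) = - vb ℝ m a := by
    rw [hs, hlast, map_neg, map_sum]
    obtain ⟨n, hn2⟩ : ∃ n, 2 * e = n + 1 := ⟨2 * e - 1, by omega⟩
    have h1 : ∑ q ∈ range (2 * e), R (vb ℝ m (a + q)) =
        (∑ q ∈ range n, - vb ℝ m (a + (q + 1))) + ∑ q ∈ range (2 * e), vb ℝ m (a + q) := by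
      rw [hn2, Finset.sum_range_succ]
      congr 1
      · refine Finset.sum_congr rfl fun q hq => ?_
        rw [Finset.mem_range] at hq
        rw [hv q (by omega), if_pos (by omega)]
      · rw [hv n (by omega), if_neg (by omega), hn2]
    have h2 : ∑ q ∈ range (2 * e), vb ℝ m (a + q) =
        (∑ q ∈ range n, vb ℝ m (a + (q + 1))) + vb ℝ m a := by
      rw [hn2, Finset.sum_range_succ']
      rfl
    rw [h1, h2, Finset.sum_neg_distrib]
    abel
  have hk : ∀ j, j < 2 * e → (R ^ (2 * e + 1)) (vb ℝ m (a + j)) = - vb ℝ m (a + j) := by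
    intro j hj
    have h1 : vb ℝ m (a + j) = ((-1 : ℝ) ^ j) • (R ^ j) (vb ℝ m a) := by
      rw [hp j hj, smul_smul, ← pow_add, ← two_mul, pow_mul]
      norm_num
    rw [h1, map_smul, hcomm, hk0, map_neg, smul_neg]
  -- the vector `R b - b`
  have hrun : R b = b + ∑ i ∈ range (2 * e),
      (∑ i' ∈ Ico i (2 * e), om ℝ m (vb ℝ m (a + i')) b) • vb ℝ m (a + i) := by
    rw [hR]
    exact run_apply hn b
  obtain ⟨g, hg⟩ : ∃ g : ℕ → ℝ, g = fun i => ∑ i' ∈ Ico i (2 * e), om ℝ m (vb ℝ m (a + i')) b :=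
    ⟨_, rfl⟩
  obtain ⟨u, hu⟩ : ∃ u : Fin m → ℝ, u = ∑ i ∈ range (2 * e), g i • vb ℝ m (a + i) := ⟨_, rfl⟩
  have hRb : R b = b + u := by
    rw [hu, hg]
    exact hrun
  have h1 : (R ^ (2 * e + 1)) u = - u := by
    rw [hu, map_sum, ← Finset.sum_neg_distrib]
    refine Finset.sum_congr rfl fun j hj => ?_
    rw [map_smul, hk j (Finset.mem_range.1 hj), smul_neg]
  have h2 : (R ^ (2 * e + 1)) (R b) = R b := by
    have h3 := hcomm (2 * e + 1) 1 b
    rw [pow_one] at h3
    rw [h3, hb1]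
  have hu0 : u = 0 := by
    have h3 : (R ^ (2 * e + 1)) (b + u) = b + u := by
      rw [← hRb]
      exact h2
    rw [map_add, hb1, h1] at h3
    have h4 : - u = u := add_left_cancel h3
    exact self_eq_neg.1 h4.symm
  have hg0 : ∀ j, j < 2 * e → g j = 0 := by
    intro j hj
    have h3 : (∑ i ∈ range (2 * e), g i • vb ℝ m (a + i)) ⟨a + j, by omega⟩ = 0 := by
      rw [← hu, hu0]
      rfl
    rw [Finset.sum_apply, Finset.sum_eq_single j] at h3
    · rw [Pi.smul_apply, smul_eq_mul] at h3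
      have h4 : vb ℝ m (a + j) ⟨a + j, by omega⟩ = 1 := if_pos rfl
      rw [h4, mul_one] at h3
      exact h3
    · intro q _ hq
      rw [Pi.smul_apply, smul_eq_mul]
      have h4 : vb ℝ m (a + q) ⟨a + j, by omega⟩ = 0 :=
        if_neg (by change ¬ (a + j = a + q); omega)
      rw [h4, mul_zero]
    · intro hq
      exact absurd (Finset.mem_range.2 hj) hq
  have h5 : g i = om ℝ m (vb ℝ m (a + i)) b + g (i + 1) := by
    rw [hg]
    exact Finset.sum_eq_sum_Ico_succ_bot hi _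
  have h6 : g (i + 1) = 0 := by
    by_cases hi2 : i + 1 < 2 * e
    · exact hg0 _ hi2
    · rw [hg]
      change ∑ i' ∈ Ico (i + 1) (2 * e), om ℝ m (vb ℝ m (a + i')) b = 0
      rw [Finset.Ico_eq_empty (by omega), Finset.sum_empty]
  rw [h6, hg0 i hi, add_zero] at h5
  exact h5.symm

/-! ### The functionals and the code -/

/-- The code: the sum over the lines through a point of even multiplicity is zero, and a word is
constant on the lines through a point of odd multiplicity. -/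
def codeG (l : List (Pt m)) : Submodule (ZMod 2) (Fin (m + 1) → ZMod 2) where
  carrier := {x | ∀ P ∈ l, (P.k % 2 = 0 → ∑ t ∈ blk P, x t = 0) ∧
    (P.k % 2 = 1 → ∀ s ∈ blk P, ∀ t ∈ blk P, x s = x t)}
  add_mem' := by
    intro x y hx hy P hP
    refine ⟨fun h => ?_, fun h s hs t ht => ?_⟩
    · simp only [Pi.add_apply, Finset.sum_add_distrib, (hx P hP).1 h, (hy P hP).1 h, add_zero]
    · rw [Pi.add_apply, Pi.add_apply, (hx P hP).2 h s hs t ht, (hy P hP).2 h s hs t ht]
  zero_mem' := by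
    intro P _
    exact ⟨fun _ => by simp, fun _ _ _ _ _ => rfl⟩
  smul_mem' := by
    intro c x hx P hP
    refine ⟨fun h => ?_, fun h s hs t ht => ?_⟩
    · simp only [Pi.smul_apply, smul_eq_mul, ← Finset.mul_sum, (hx P hP).1 h, mul_zero]
    · rw [Pi.smul_apply, Pi.smul_apply, (hx P hP).2 h s hs t ht]

/-- The integral vectors of a point: `g (v_a + v_{a+2} + ... + v_{a+k-2})` for even `k`, all
`g v_{a+i}`, `i < k - 1`, for odd `k`. -/
def wG (P : Pt m) : Set (Fin m → ℤ) :=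
  {w | (P.k % 2 = 0 ∧ w = rep ℤ m P.g (∑ q ∈ range (P.k / 2), vb ℤ m (P.a + 2 * q))) ∨
    (P.k % 2 = 1 ∧ ∃ i, i + 1 < P.k ∧ w = rep ℤ m P.g (vb ℤ m (P.a + i)))}

/-- The functionals `om w` of these vectors. -/
def fG (l : List (Pt m)) : Set (Fin m → ℤ) :=
  {f | ∃ P ∈ l, ∃ w ∈ wG P, f = fun i : Fin m => om ℤ m w (vb ℤ m i)}

private theorem kr_vb (a : ℕ) :
    (fun i => ((vb ℤ m a i : ℤ) : ZMod 2)) = vb (ZMod 2) m a := by
  funext i
  unfold vb
  split_ifs <;> simp

private theorem kr_blk (P : Pt m) (x : Fin (m + 1) → ZMod 2) :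
    ∑ t ∈ blk P, x t =
      ∑ t ∈ Finset.univ.filter (fun t : Fin (m + 1) => P.a ≤ t.val ∧ t.val < P.a + P.k),
        x (perm m P.g t) := by
  unfold blk
  rw [Finset.sum_map]
  rfl

private theorem kr_key (l : List (Pt m)) (b : Fin m → ZMod 2) (hb : b ∈ kerF (ZMod 2) (fG l))
    (P : Pt m) (hP : P ∈ l) (v : Fin m → ℤ) (hv : rep ℤ m P.g v ∈ wG P) :
    ∑ t, iota m (fun i => ((v i : ℤ) : ZMod 2)) t * iota m b (perm m P.g t) = 0 := by
  have h1 := hb _ ⟨P, hP, _, hv, rfl⟩
  have h2 : ∀ i : Fin m, ((om ℤ m (rep ℤ m P.g v) (vb ℤ m i) : ℤ) : ZMod 2) =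
      om (ZMod 2) m (rep (ZMod 2) m P.g (fun i => ((v i : ℤ) : ZMod 2))) (vb (ZMod 2) m i) := by
    intro i
    have h3 := om_map (m := m) (Int.castRingHom (ZMod 2)) (rep ℤ m P.g v) (vb ℤ m i)
    have h4 := rep_map (m := m) (Int.castRingHom (ZMod 2)) P.g v
    simp only [Int.coe_castRingHom] at h3 h4
    rw [h3, h4, kr_vb]
  simp only [h2] at h1
  have h5 : b = ∑ i : Fin m, b i • vb (ZMod 2) m i := by
    funext t
    rw [Finset.sum_apply, Finset.sum_eq_single t]
    · simp [vb]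
    · intro c _ hc
      have hc' : t.val ≠ c.val := fun e => hc (Fin.ext e.symm)
      simp [vb, hc']
    · intro hh
      exact absurd (Finset.mem_univ _) hh
  have h6 : om (ZMod 2) m (rep (ZMod 2) m P.g (fun i => ((v i : ℤ) : ZMod 2))) b = 0 := by
    rw [← h1]
    conv_lhs => rw [h5]
    rw [map_sum]
    refine Finset.sum_congr rfl fun i _ => ?_
    rw [map_smul, smul_eq_mul, mul_comm]
  rw [om_iota, ← Equiv.sum_comp (perm m P.g)] at h6
  rw [← h6]
  refine Finset.sum_congr rfl fun t _ => ?_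
  rw [iota_rep]

private theorem kr_even (a e : ℕ) (h : a + 2 * e ≤ m + 1) (t : Fin (m + 1)) :
    iota m (∑ q ∈ range e, vb (ZMod 2) m (a + 2 * q)) t =
      if a ≤ t.val ∧ t.val < a + 2 * e then 1 else 0 := by
  induction e with
  | zero =>
    rw [Finset.sum_range_zero, map_zero, if_neg (by omega)]
    rfl
  | succ e ih =>
    rw [Finset.sum_range_succ, map_add, Pi.add_apply, ih (by omega), iota_vb (by omega)]
    by_cases h1 : a ≤ t.val ∧ t.val < a + 2 * e
    · rw [if_pos h1, if_neg (by omega), if_neg (by omega), if_pos (by omega)]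
      ring
    · by_cases h2 : t.val = a + 2 * e
      · rw [if_neg h1, if_pos h2, if_neg (by omega), if_pos (by omega)]
        ring
      · by_cases h3 : t.val = a + 2 * e + 1
        · rw [if_neg h1, if_neg h2, if_pos h3, if_pos (by omega)]
          ring
        · rw [if_neg h1, if_neg h2, if_neg h3, if_neg (by omega)]
          ring

/-- PROOF. As `finrank_kerF_code` (its private lemmas `md3_*` may be copied): for `b` in the kernel
`∑_t ι(v)_t ι(b)_{π t} = 0` for all `v` with `rep ℤ m P.g v ∈ wG P`. For even `k` and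
`v = ∑_{q < k/2} v_{a+2q}` `ι(v)` is `1` exactly on `a, ..., a + k - 1` (the pairs
`{a+2q, a+2q+1}` are disjoint), which gives the sum over `blk P`. For odd `k` and `v = v_{a+i}`:
`ι(b)_{π (a+i)} = ι(b)_{π (a+i+1)}`, so `ι(b)` is constant on `blk P`. So `ι` maps the kernel
into `codeG l`, injectively. -/
theorem finrank_kerF_codeG (l : List (Pt m)) (h : ∀ P ∈ l, 2 ≤ P.k ∧ P.a + P.k ≤ m + 1) :
    finrank (ZMod 2) (kerF (ZMod 2) (fG l)) ≤ finrank (ZMod 2) (codeG l) := by
  have hmem : ∀ b ∈ kerF (ZMod 2) (fG l), iota m b ∈ codeG l := by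
    intro b hb P hP
    obtain ⟨hk2, hak⟩ := h P hP
    have key : ∀ v : Fin m → ℤ, rep ℤ m P.g v ∈ wG P →
        ∑ t, iota m (fun i => ((v i : ℤ) : ZMod 2)) t * iota m b (perm m P.g t) = 0 :=
      fun v hv => kr_key l b hb P hP v hv
    refine ⟨fun hk => ?_, fun hk s hs t ht => ?_⟩
    · rw [kr_blk, ← key (∑ q ∈ range (P.k / 2), vb ℤ m (P.a + 2 * q)) (Or.inl ⟨hk, rfl⟩),
        Finset.sum_filter]
      refine Finset.sum_congr rfl fun t _ => ?_
      have h7 : (fun i => (((∑ q ∈ range (P.k / 2), vb ℤ m (P.a + 2 * q)) i : ℤ) : ZMod 2)) =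
          ∑ q ∈ range (P.k / 2), vb (ZMod 2) m (P.a + 2 * q) := by
        funext i
        rw [Finset.sum_apply, Finset.sum_apply, Int.cast_sum]
        exact Finset.sum_congr rfl fun q _ => congrFun (kr_vb _) i
      rw [h7, kr_even P.a (P.k / 2) (by omega)]
      have h8 : P.a + 2 * (P.k / 2) = P.a + P.k := by omega
      rw [h8]
      by_cases h5 : P.a ≤ t.val ∧ t.val < P.a + P.k
      · rw [if_pos h5, if_pos h5, one_mul]
      · rw [if_neg h5, if_neg h5, zero_mul]
    · have two : ∀ a' : ℕ, rep ℤ m P.g (vb ℤ m a') ∈ wG P → a' < m →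
          ∀ s t : Fin (m + 1), s.val = a' → t.val = a' + 1 →
            iota m b (perm m P.g s) = iota m b (perm m P.g t) := by
        intro a' ha' hm s t hs ht
        have h5 := key (vb ℤ m a') ha'
        rw [kr_vb, Finset.sum_eq_add s t (by intro e; rw [e] at hs; omega)] at h5
        · rw [iota_vb hm, iota_vb hm, if_pos hs, if_neg (by omega), if_neg (by omega), if_pos ht,
            add_zero, zero_add, one_mul, one_mul] at h5
          exact CharTwo.add_eq_zero.1 h5
        · intro c _ hc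
          have hcs : c.val ≠ a' := fun e => hc.1 (Fin.ext (e.trans hs.symm))
          have hct : c.val ≠ a' + 1 := fun e => hc.2 (Fin.ext (e.trans ht.symm))
          rw [iota_vb hm, if_neg hcs, if_neg hct, add_zero, zero_mul]
        · intro hh
          exact absurd (Finset.mem_univ _) hh
        · intro hh
          exact absurd (Finset.mem_univ _) hh
      have all' : ∀ j : ℕ, ∀ hj : j < P.k, iota m b (perm m P.g ⟨P.a + j, by omega⟩) =
          iota m b (perm m P.g ⟨P.a, by omega⟩) := by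
        intro j
        induction j with
        | zero => intro _; rfl
        | succ j ih =>
          intro hj
          rw [← ih (by omega)]
          exact (two (P.a + j) (Or.inr ⟨hk, j, hj, rfl⟩) (by omega) _ _ rfl rfl).symm
      have all : ∀ s : Fin (m + 1), P.a ≤ s.val → s.val < P.a + P.k →
          iota m b (perm m P.g s) = iota m b (perm m P.g ⟨P.a, by omega⟩) := by
        intro s h5 h6
        have h7 : s = ⟨P.a + (s.val - P.a), by omega⟩ := Fin.ext (by
          change s.val = P.a + (s.val - P.a)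
          omega)
        rw [h7]
        exact all' (s.val - P.a) (by omega)
      unfold blk at hs ht
      rw [Finset.mem_map] at hs ht
      obtain ⟨s', hs', rfl⟩ := hs
      obtain ⟨t', ht', rfl⟩ := ht
      rw [Finset.mem_filter] at hs' ht'
      exact (all s' hs'.2.1 hs'.2.2).trans (all t' ht'.2.1 ht'.2.2).symm
  have h5 := LinearMap.finrank_le_finrank_of_injective (f := (iota m).restrict hmem) (by
    intro x y hxy
    apply Subtype.ext
    apply iota_inj
    exact congrArg Subtype.val hxy)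
  exact h5

private theorem oP_kerG_inv (g : BraidGroup m) (x : Fin m → ℝ) :
    rep ℝ m g (rep ℝ m g⁻¹ x) = x := by
  rw [← LinearEquiv.mul_apply, ← map_mul, mul_inv_cancel, map_one]
  rfl

private theorem oP_kerG_A (P : Pt m) (h : P.a + P.k ≤ m + 1) (b : Fin m → ℝ)
    (hb : (oP P).p ((oP P).X b) = 0) :
    rep ℝ m (twist m P.a P.k) (rep ℝ m P.g⁻¹ b) = rep ℝ m P.g⁻¹ b := by
  have h1 : (oP P).A b = rep ℝ m P.braid b := by
    rw [← wd_prod P h]
    exact obj_A (wd P) b
  rw [QO.A_apply, hb, add_zero] at h1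
  have h2 : rep ℝ m P.braid b =
      rep ℝ m P.g (rep ℝ m (twist m P.a P.k) (rep ℝ m P.g⁻¹ b)) := by
    unfold Pt.braid
    rw [map_mul, map_mul]
    rfl
  rw [h2] at h1
  apply (rep ℝ m P.g).injective
  rw [← h1, oP_kerG_inv]

/-- PROOF. `(oP P).A b = rep ℝ m P.braid b` (`obj_A`, `wd_prod`), so `(oP P).A b = b` and
`rep (twist m a k) (rep g⁻¹ b) = rep g⁻¹ b`. By `twist_even` (the vector `∑ v_{a+2q}` is not `0`) or
`twist_odd` `om v (rep g⁻¹ b) = 0`, so `om (rep g v) b = 0` (`rep_om`), for the vectors `v` of `wG P`.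
And `om w b = ∑ f i * b i` for `f i = om ℤ m w v_i` (see the proof of `oP_ker`: `om_map`,
`rep_map`). -/
theorem oP_kerG (P : Pt m) (h : 2 ≤ P.k ∧ P.a + P.k ≤ m + 1) (b : Fin m → ℝ)
    (hb : (oP P).p ((oP P).X b) = 0) (f : Fin m → ℤ)
    (hf : ∃ w ∈ wG P, f = fun i : Fin m => om ℤ m w (vb ℤ m i)) : ∑ i, (f i : ℝ) * b i = 0 := by
  obtain ⟨w, hw, rfl⟩ := hf
  have hb1 : b = ∑ i : Fin m, b i • vb ℝ m i := by
    funext j
    rw [Finset.sum_apply, Finset.sum_eq_single j]
    · simp [vb]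
    · intro i _ hij
      have : ¬ j.val = i.val := fun h => hij (Fin.ext h.symm)
      simp [vb, this]
    · intro h
      exact absurd (Finset.mem_univ j) h
  have hvb : ∀ i : ℕ, (fun j => (Int.castRingHom ℝ) (vb ℤ m i j)) = vb ℝ m i := by
    intro i
    funext j
    unfold vb
    split_ifs <;> simp
  have hsum : ∑ i : Fin m, ((om ℤ m w (vb ℤ m i) : ℤ) : ℝ) * b i =
      om ℝ m (fun j => (Int.castRingHom ℝ) (w j)) b := by
    conv_rhs => rw [hb1]
    rw [map_sum]
    refine Finset.sum_congr rfl fun i _ => ?_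
    have h1 := om_map (m := m) (Int.castRingHom ℝ) w (vb ℤ m i)
    rw [hvb] at h1
    change ((om ℤ m w (vb ℤ m i) : ℤ) : ℝ) = om ℝ m (fun j => (Int.castRingHom ℝ) (w j))
      (vb ℝ m i) at h1
    rw [h1, map_smul, smul_eq_mul, mul_comm]
  rw [hsum]
  -- the value at `b` of `om` of a translated vector
  have hg : ∀ v : Fin m → ℝ, om ℝ m (rep ℝ m P.g v) b = om ℝ m v (rep ℝ m P.g⁻¹ b) := by
    intro v
    rw [← rep_om P.g v (rep ℝ m P.g⁻¹ b), oP_kerG_inv]
  have hA := oP_kerG_A P h.2 b hb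
  rcases hw with ⟨hk, rfl⟩ | ⟨hk, i, hi, rfl⟩
  · have hke : P.k = 2 * (P.k / 2) := by omega
    rw [rep_map (m := m) (Int.castRingHom ℝ) P.g, hg]
    have hv : (fun j => (Int.castRingHom ℝ)
        ((∑ q ∈ range (P.k / 2), vb ℤ m (P.a + 2 * q)) j)) =
        ∑ q ∈ range (P.k / 2), vb ℝ m (P.a + 2 * q) := by
      funext j
      rw [Finset.sum_apply, Finset.sum_apply, map_sum]
      exact Finset.sum_congr rfl fun q _ => congrFun (hvb _) j
    rw [hv]
    have h3 := twist_even (m := m) (a := P.a) (e := P.k / 2) (by omega) (by omega)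
      (rep ℝ m P.g⁻¹ b)
    rw [← hke, hA] at h3
    have h4 := left_eq_add.1 h3
    have h5 : ∑ q ∈ range (P.k / 2), vb ℝ m (P.a + 2 * q) ≠ 0 := by
      intro h0
      have ham : P.a < m := by omega
      have h6 := congrFun h0 (⟨P.a, ham⟩ : Fin m)
      rw [Finset.sum_apply, Finset.sum_eq_single 0] at h6
      · simp [vb] at h6
      · intro q _ hq
        unfold vb
        rw [if_neg]
        change ¬ P.a = P.a + 2 * q
        omega
      · intro h7
        exact absurd (Finset.mem_range.2 (by omega)) h7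
    have h6 := (smul_eq_zero.1 h4).resolve_right h5
    linarith
  · have hko : P.k = 2 * (P.k / 2) + 1 := by omega
    rw [rep_map (m := m) (Int.castRingHom ℝ) P.g, hvb, hg]
    have h3 := twist_odd (m := m) (a := P.a) (e := P.k / 2) (by omega) (rep ℝ m P.g⁻¹ b)
    rw [← hko] at h3
    exact h3 hA i (by omega)

/-- PROOF. As `finrank_inv_le`: `inv ≤ kerF ℝ (fG l)` by `oP_kerG`, then `finrank_ker_le`,
`finrank_kerF_codeG`. -/
theorem finrank_inv_leG (l : List (Pt m)) (h : ∀ P ∈ l, 2 ≤ P.k ∧ P.a + P.k ≤ m + 1) :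
    finrank ℝ (inv (l.map oP)) ≤ finrank (ZMod 2) (codeG l) := by
  have h1 : inv (l.map oP) ≤ kerF ℝ (fG l) := by
    intro b hb f hf
    obtain ⟨P, hP, hw⟩ := hf
    unfold inv at hb
    rw [Submodule.mem_iInf] at hb
    have h2 := hb (oP P)
    rw [Submodule.mem_iInf] at h2
    have h3 := h2 (List.mem_map_of_mem hP)
    rw [LinearMap.mem_ker, LinearMap.comp_apply] at h3
    exact oP_kerG P (h P hP) b h3 f hw
  exact (Submodule.finrank_mono h1).trans ((finrank_ker_le _).trans (finrank_kerF_codeG l h))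

end Pool.Agent.Helper81.SBA
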