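import Pool.Agent.Helper81.SBA.W.Od
import Pool.Agent.Helper81.SBA.W.Kr
import Pool.Agent.Helper81.SBA.V.Tb
import Pool.Agent.Helper81.SBA.V.Ch

/-!
# The index inequality for all multiplicities
-/

set_option autoImplicit false

open Module Finset

namespace Pool.Agent.Helper81.SBA

/-- `4 - k` for even `k`, `k - 1` for odd `k`. -/
def hk (k : ℕ) : ℤ := if k % 2 = 0 then 4 - k else k - 1

/-- PROOF. As `even_psd`, with `psd_prod` for the pairs `(oP P, hW P.k)` (`oP_loc_all`),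
`index_word`, `finrank_inv_leG`. -/
theorem psd_all {m e : ℕ} (hm : m + 1 = 2 * e) (he : 2 ≤ e) {l : List (Pt m)} (hl : IsArr m l) :
    (l.map fun P => hW P.k).sum + m ≤ 3 * e * e - e + finrank (ZMod 2) (codeG l) := by
  have hprod : (((l.map wd).flatten).map bl).prod = twist m 0 (m + 1) := by
    rw [List.map_flatten, List.prod_flatten, List.map_map, List.map_map, ← hl.2]
    congr 1
    refine List.map_congr_left fun P hP => ?_
    exact wd_prod P (hl.1 P hP).2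
  have hiso : Iso (obj (ω := om ℝ m) (((l.map wd).flatten).map vl)) (prodQ (l.map oP)) := by
    have h1 := obj_flatten (ω := om ℝ m) ((l.map wd).map (List.map vl))
    rw [← List.map_flatten, List.map_map, List.map_map] at h1
    exact h1
  have hA : ∀ b, (prodQ (l.map oP)).p ((prodQ (l.map oP)).X b) = 0 := by
    intro b
    have h1 := obj_pX ⟨e - 1, by omega⟩ _ hprod b
    obtain ⟨f, -, h2, h3⟩ := hiso
    rw [← h3, h2]
    exact h1
  have hf : (l.map fun P => (oP P, hW P.k)).map Prod.fst = l.map oP := by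
    rw [List.map_map]
    rfl
  have hs : (l.map fun P => (oP P, hW P.k)).map Prod.snd = l.map fun P => hW P.k := by
    rw [List.map_map]
    rfl
  have hV : finrank ℝ (Fin m → ℝ) = m := by simp
  have hinv : finrank ℝ (inv (l.map oP)) ≤ m := by
    have h1 := Submodule.finrank_le (inv (l.map oP))
    rwa [hV] at h1
  have hpsd := psd_prod (l.map fun P => (oP P, hW P.k)) (by
    intro q hq
    obtain ⟨P, hP, rfl⟩ := List.mem_map.1 hq
    exact oP_loc_all P (hl.1 P hP).2) (by rw [hf]; exact hA)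
    (n := (l.map fun P => hW P.k).sum + m - finrank ℝ (inv (l.map oP))) (by
      rw [hf, hs, hV]
      omega)
  rw [hf] at hpsd
  have h5 := index_word hm he _ hprod (psd_iso hiso.symm hpsd)
  have h6 := finrank_inv_leG l hl.1
  omega

private theorem hk_sum_hW (k : ℕ) (h : 2 ≤ k) : (hk k : ℤ) = 3 * ((k * (k - 1) : ℕ) : ℤ) - 4 * (hW k : ℤ) := by
  unfold hk hW
  rcases Nat.even_or_odd' k with ⟨c, rfl | rfl⟩
  · have h1 : 2 * c % 2 = 0 := by omega
    have h2 : 2 * c / 2 = c := by omega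
    obtain ⟨f, rfl⟩ : ∃ f, c = f + 1 := ⟨c - 1, by omega⟩
    rw [if_pos h1, if_pos h1, h2]
    have h3 : 3 * (f + 1) * (f + 1) - (f + 1) - 1 = 3 * f * f + 5 * f + 1 := by
      have : 3 * (f + 1) * (f + 1) = 3 * f * f + 5 * f + 1 + (f + 2) := by ring
      omega
    have h4 : 2 * (f + 1) - 1 = 2 * f + 1 := by omega
    rw [h3, h4]
    push_cast
    ring
  · have h1 : ¬ (2 * c + 1) % 2 = 0 := by omega
    have h2 : (2 * c + 1) / 2 = c := by omega
    rw [if_neg h1, if_neg h1, h2]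
    have h4 : 2 * c + 1 - 1 = 2 * c := by omega
    rw [h4]
    push_cast
    ring

private theorem hk_sum_list {m : ℕ} (l : List (Pt m)) (h : ∀ P ∈ l, 2 ≤ P.k) :
    (l.map fun P => hk P.k).sum =
      3 * (((l.map fun P => P.k * (P.k - 1)).sum : ℕ) : ℤ) -
        4 * (((l.map fun P => hW P.k).sum : ℕ) : ℤ) := by
  induction l with
  | nil => simp
  | cons P l ih =>
    have h1 := ih fun Q hQ => h Q (List.mem_cons_of_mem P hQ)
    have h2 := hk_sum_hW P.k (h P (by simp))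
    simp only [List.map_cons, List.sum_cons]
    rw [h1, h2]
    push_cast
    ring

/-- PROOF. `4 hW k = 3 k (k - 1) - hk k` (for `2 ≤ k`; even `k = 2 e`: `12 e² - 4 e - 4`; odd
`k = 2 e + 1`: `12 e² + 4 e`), `pairs_sum`: the sum of `k (k - 1)` is `(m + 1) m`; `psd_all`. With
`d = m + 1 = 2 e`: `∑ hk = 3 d (d - 1) - 4 ∑ hW ≥ 3 d (d - 1) - (3 d² - 2 d) - 4 κ + 4 (d - 1)`. -/
theorem hk_sum {m e : ℕ} (hm : m + 1 = 2 * e) (he : 2 ≤ e) {l : List (Pt m)} (hl : IsArr m l) :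
    3 * (m + 1 : ℤ) ≤ (l.map fun P => hk P.k).sum + 4 + 4 * (finrank (ZMod 2) (codeG l) : ℤ) := by
  have h1 := psd_all hm he hl
  have h2 := hk_sum_list l fun P hP => (hl.1 P hP).1
  have h3 := pairs_sum hl
  rw [h2, h3]
  generalize (l.map fun P => hW P.k).sum = S at *
  generalize finrank (ZMod 2) (codeG l) = κ at *
  obtain ⟨f, rfl⟩ : ∃ f, e = f + 1 := ⟨e - 1, by omega⟩
  have hm' : m = 2 * f + 1 := by omega
  subst hm'
  have h4 : 3 * (f + 1) * (f + 1) - (f + 1) = 3 * f * f + 5 * f + 2 := by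
    have : 3 * (f + 1) * (f + 1) = 3 * f * f + 5 * f + 2 + (f + 1) := by ring
    omega
  rw [h4] at h1
  have h5 : ((S : ℤ) + (2 * f + 1 : ℤ)) ≤ 3 * f * f + 5 * f + 2 + κ := by exact_mod_cast h1
  push_cast
  nlinarith [h5]

private theorem sbaW11_mem {m : ℕ} {l : List (Pt m)} {s : Fin (m + 1)}
    {B : Finset (Fin (m + 1))} (hB : B ∈ recs l s) :
    ∃ j : Fin l.length, s ∈ blk (l.get j) ∧ (blk (l.get j)).erase s = B := by
  obtain ⟨j, hj, h⟩ := Finset.mem_image.1 hB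
  exact ⟨j, (Finset.mem_filter.1 hj).2, h⟩

private theorem sbaW11_card_le {m K : ℕ} {l : List (Pt m)} (hl : IsArr m l)
    (hK : ∀ P ∈ l, P.k ≤ K) (s : Fin (m + 1)) : ∀ B ∈ recs l s, B.card ≤ K := by
  intro B hB
  obtain ⟨j, hj, rfl⟩ := sbaW11_mem hB
  have h1 := hK _ (List.get_mem l j)
  rw [Finset.card_erase_of_mem hj, card_blk _ (hl.1 _ (List.get_mem l j)).2]
  omega

private theorem sbaW11_card {m K : ℕ} {l : List (Pt m)} (hl : IsArr m l)
    (hK : ∀ P ∈ l, P.k ≤ K) (hK0 : 0 < K) (s : Fin (m + 1)) : m / K ≤ (recs l s).card := by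
  have h1 : (Finset.univ.erase s : Finset (Fin (m + 1))) ⊆ (recs l s).biUnion id := by
    intro t ht
    obtain ⟨j, ⟨h2, h3⟩, -⟩ := pair_unique hl s t (Ne.symm (Finset.ne_of_mem_erase ht))
    refine Finset.mem_biUnion.2 ⟨(blk (l.get j)).erase s, ?_, ?_⟩
    · exact Finset.mem_image.2 ⟨j, Finset.mem_filter.2 ⟨Finset.mem_univ _, h2⟩, rfl⟩
    · exact Finset.mem_erase.2 ⟨Finset.ne_of_mem_erase ht, h3⟩
  have h2 : (Finset.univ.erase s : Finset (Fin (m + 1))).card = m := by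
    rw [Finset.card_erase_of_mem (Finset.mem_univ _), Finset.card_univ, Fintype.card_fin,
      Nat.add_sub_cancel]
  have h3 := Finset.card_le_card h1
  rw [h2] at h3
  have h5 : ((recs l s).biUnion id).card ≤ (recs l s).card * K :=
    Finset.card_biUnion_le_card_mul _ _ _ fun B hB => sbaW11_card_le hl hK s B hB
  exact Nat.div_le_of_le_mul (by rw [mul_comm]; exact h3.trans h5)

private theorem sbaW11_code {m : ℕ} {l : List (Pt m)} (hl : IsArr m l) (s : Fin (m + 1)) :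
    ∀ B ∈ recs l s, ∀ x ∈ codeG l, (∀ i ∈ B, x i = 0) → x s = 0 := by
  intro B hB x hx h0
  obtain ⟨j, hj, rfl⟩ := sbaW11_mem hB
  have hP : ((l.get j).k % 2 = 0 → ∑ t ∈ blk (l.get j), x t = 0) ∧
      ((l.get j).k % 2 = 1 → ∀ s ∈ blk (l.get j), ∀ t ∈ blk (l.get j), x s = x t) :=
    hx _ (List.get_mem l j)
  have h1 := hl.1 _ (List.get_mem l j)
  rcases Nat.mod_two_eq_zero_or_one (l.get j).k with hk | hk
  · have h2 := hP.1 hk
    rw [← Finset.add_sum_erase _ _ hj, Finset.sum_eq_zero h0, add_zero] at h2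
    exact h2
  · have h2 : 0 < ((blk (l.get j)).erase s).card := by
      rw [Finset.card_erase_of_mem hj, card_blk _ h1.2]
      omega
    obtain ⟨i, hi⟩ := Finset.card_pos.1 h2
    rw [hP.2 hk s hj i (Finset.mem_of_mem_erase hi)]
    exact h0 i hi

/-- PROOF. As `code_small`: the recovery sets `recs l s` are disjoint (`recs_disj`), have at most `K`
elements, their number is at least `m / K` (compare `recs_card`; `1 ≤ K`), and a word of `codeG l`
that vanishes on `(blk P).erase s` vanishes at `s` (compare `recs_code`); `rec_bound`, `rec_lim` with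
this `K`. For `K = 0` there is no arrangement with `m ≥ 1` (every point has `2 ≤ k ≤ K`, and `pairs_sum`). -/
theorem codeG_small (K : ℕ) (δ : ℝ) (hδ : 0 < δ) : ∃ N : ℕ, ∀ m : ℕ, N ≤ m → ∀ l : List (Pt m),
    IsArr m l → (∀ P ∈ l, P.k ≤ K) → (finrank (ZMod 2) (codeG l) : ℝ) ≤ δ * (m + 1) := by
  obtain ⟨q, r0, h⟩ := rec_lim K δ hδ
  refine ⟨max 1 (K * r0), fun m hm l hl hK => ?_⟩
  have hm1 : 1 ≤ m := (le_max_left _ _).trans hm
  have hm2 : K * r0 ≤ m := (le_max_right _ _).trans hm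
  have hK0 : 0 < K := by
    obtain ⟨j, -, -⟩ := pair_unique hl (⟨0, by omega⟩ : Fin (m + 1)) ⟨1, by omega⟩ (by
      intro h
      simp only [Fin.mk.injEq] at h
      omega)
    have h1 := hK _ (List.get_mem l j)
    have h2 := (hl.1 _ (List.get_mem l j)).1
    omega
  have h1 := rec_bound q K (m / K) (codeG l) (recs l) (recs_disj hl) (sbaW11_card_le hl hK)
    (sbaW11_card hl hK hK0) (sbaW11_code hl)
  rw [Fintype.card_fin] at h1
  have h2 := h (m / K) ((Nat.le_div_iff_mul_le hK0).2 (by rw [mul_comm]; exact hm2))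
  have h3 : (0 : ℝ) ≤ ((m + 1 : ℕ) : ℝ) := Nat.cast_nonneg _
  have h4 := mul_le_mul_of_nonneg_left h2 h3
  refine h1.trans (h4.trans (le_of_eq ?_))
  push_cast
  ring

/-- PROOF. `hk_sum`, `codeG_small` with `δ = ε / 8`, `m + 1 ≥ 8 / ε`, `m + 1 ≥ 4`. -/
theorem hk_lower (K : ℕ) (ε : ℝ) (hε : 0 < ε) : ∃ N : ℕ, ∀ m : ℕ, N ≤ m → Even (m + 1) →
    ∀ l : List (Pt m), IsArr m l → (∀ P ∈ l, P.k ≤ K) →
      (3 - ε) * (m + 1) ≤ ((l.map fun P => hk P.k).sum : ℝ) := by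
  obtain ⟨N0, hN0⟩ := codeG_small K (ε / 8) (by positivity)
  obtain ⟨N1, hN1⟩ := exists_nat_ge (8 / ε)
  refine ⟨max N0 (max 3 N1), fun m hm he l hl hK => ?_⟩
  have hm0 : N0 ≤ m := (le_max_left _ _).trans hm
  have hm3 : 3 ≤ m := ((le_max_left _ _).trans (le_max_right _ _)).trans hm
  have hm1 : N1 ≤ m := ((le_max_right _ _).trans (le_max_right _ _)).trans hm
  obtain ⟨e, he⟩ := he
  have h1 := hk_sum (e := e) (by omega) (by omega) hl
  have h2 := hN0 m hm0 l hl hK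
  have h3 : (3 : ℝ) * (m + 1) ≤ (((l.map fun P => hk P.k).sum : ℤ) : ℝ) + 4 +
      4 * (finrank (ZMod 2) (codeG l) : ℝ) := by
    exact_mod_cast h1
  have h6 : 8 / ε ≤ (m : ℝ) := hN1.trans (by exact_mod_cast hm1)
  rw [div_le_iff₀ hε] at h6
  nlinarith

/-! ### The orbifold inequality -/

/-- PROOF. `orb_diff`, `pairs_sq` for the constant weight `x` (`card_blk`, `∏ = x ^ 2` for `k = 2`):
a point that is not blown up contributes `3 x² - 4 x² + 2 x² = x²`, a blown up point of multiplicity `k`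
contributes `(3/4) (k x)² + (z - 2 + k x / 2)² - (k x)² + k x² = y² - k x y + k x²`, `y = 2 - z`. -/
theorem orb_eq {m : ℕ} {l : List (Pt m)} (hl : IsArr m l) (x : ℝ) (z : Fin l.length → ℝ)
    (Bl : Finset (Fin l.length)) (h2 : ∀ j, j ∉ Bl → (l.get j).k = 2) :
    3 * orbCTwo l (fun _ => x) z Bl - orbCOneSq l (fun _ => x) z Bl =
      - (x ^ 2 * (m + 1)) + ∑ _j ∈ univ \ Bl, x ^ 2 +
        ∑ j ∈ Bl, ((2 - z j) ^ 2 - (l.get j).k * x * (2 - z j) + (l.get j).k * x ^ 2) := by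
  have hk : ∀ j : Fin l.length, (blk (l.get j)).card = (l.get j).k := fun j =>
    card_blk _ (hl.1 _ (List.get_mem l j)).2
  rw [orb_diff hl _ _ _ h2, pairs_sq hl]
  simp only [Finset.prod_const, Finset.sum_const, nsmul_eq_mul, hk, Finset.card_univ,
    Fintype.card_fin]
  rw [← Finset.sum_sdiff (Finset.subset_univ Bl)]
  have e1 : ∑ j ∈ univ \ Bl, 3 * x ^ (l.get j).k =
      ∑ j ∈ univ \ Bl, (x ^ 2 + ((((l.get j).k : ℝ) * x) ^ 2 - ((l.get j).k : ℝ) * x ^ 2)) := by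
    refine Finset.sum_congr rfl fun j hj => ?_
    rw [h2 j (Finset.mem_sdiff.1 hj).2]
    push_cast
    ring
  have e2 : ∑ j ∈ Bl, (3 / 4 * (((l.get j).k : ℝ) * x) ^ 2 +
        (z j - 2 + ((l.get j).k : ℝ) * x / 2) ^ 2) =
      ∑ j ∈ Bl, (((2 - z j) ^ 2 - ((l.get j).k : ℝ) * x * (2 - z j) + ((l.get j).k : ℝ) * x ^ 2) +
        ((((l.get j).k : ℝ) * x) ^ 2 - ((l.get j).k : ℝ) * x ^ 2)) := by
    refine Finset.sum_congr rfl fun j _ => ?_
    ring
  rw [e1, e2, Finset.sum_add_distrib, Finset.sum_add_distrib, Finset.sum_const, nsmul_eq_mul]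
  push_cast
  ring

/-- The contribution of a point.
PROOF. `y = 2 - z`. `k = 2` (`hk = 2`, `λ ≤ 1`): `y² - 2 x y + 2 x² = (y - x)² + x² ≥ λ x²`. `k = 3`
(`hk = 2`): hypothesis. Even `k ≥ 4` (`hk = 4 - k`): for `k = 4` it is `(y - 2x)² ≥ 0`; for `k ≥ 6`
`y² - k x y + k x² + λ x² (k - 4) / 2 = y² - 2 λ x² - k x (y - x - λ x / 2) ≥ y² - 2 λ x² -
4 x (y - x - λ x / 2) = (y - 2 x)²`, because `y - x - λ x / 2 ≤ 0`. Odd `k ≥ 5`:
`y² - k x y + k x² ≥ k x² - k² x² / 4` and `k - k² / 4 - λ (k - 1) / 2 ≥ - k² / 4`. -/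
theorem orb_point (k : ℕ) (hk2 : 2 ≤ k) (x y lam : ℝ) (hx : 0 < x) (h0 : 0 ≤ lam) (h1 : lam ≤ 1)
    (h3 : k = 3 → lam * x ^ 2 ≤ y ^ 2 - 3 * x * y + 3 * x ^ 2)
    (h6 : k % 2 = 0 → 6 ≤ k → y ≤ (1 + lam / 2) * x) :
    lam / 2 * x ^ 2 * hk k - (if k % 2 = 1 ∧ 5 ≤ k then (k : ℝ) ^ 2 / 4 * x ^ 2 else 0) ≤
      y ^ 2 - k * x * y + k * x ^ 2 := by
  have hxx : 0 < x ^ 2 := by positivity
  rcases Nat.even_or_odd k with he | ho
  · have hk0 : k % 2 = 0 := Nat.even_iff.1 he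
    have hc : ¬(k % 2 = 1 ∧ 5 ≤ k) := by omega
    rw [if_neg hc, hk, if_pos hk0]
    push_cast
    rcases Nat.lt_or_ge k 4 with hlt | hge
    · have hk2' : k = 2 := by omega
      subst hk2'
      push_cast
      nlinarith [sq_nonneg (y - x)]
    · rcases Nat.lt_or_ge k 6 with hlt6 | hge6
      · have hk4 : k = 4 := by omega
        subst hk4
        push_cast
        nlinarith [sq_nonneg (y - 2 * x)]
      · have hy := h6 hk0 hge6
        have hkr : (4 : ℝ) ≤ k := by exact_mod_cast hge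
        have hp : 0 ≤ ((k : ℝ) - 4) * (x * ((1 + lam / 2) * x - y)) :=
          mul_nonneg (by linarith) (mul_nonneg hx.le (by linarith))
        nlinarith [sq_nonneg (y - 2 * x)]
  · have hk1 : k % 2 = 1 := Nat.odd_iff.1 ho
    have hk0 : ¬ k % 2 = 0 := by omega
    rw [hk, if_neg hk0]
    push_cast
    rcases Nat.lt_or_ge k 5 with hlt | hge
    · have hk3 : k = 3 := by omega
      have hc : ¬(k % 2 = 1 ∧ 5 ≤ k) := by omega
      rw [if_neg hc]
      have h := h3 hk3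
      subst hk3
      push_cast
      nlinarith
    · rw [if_pos ⟨hk1, hge⟩]
      have hkr : (5 : ℝ) ≤ k := by exact_mod_cast hge
      have hp : 0 ≤ x ^ 2 * ((k : ℝ) - lam / 2 * (k - 1)) := by
        apply mul_nonneg hxx.le
        nlinarith
      nlinarith [sq_nonneg (y - k * x / 2)]

/-- PROOF. `N` from `hk_lower K (1/10)`. `orb_eq`, `orb_point` for the blown up points with
`y = 2 - z j`, and `x² ≥ (λ / 2) x² hk 2` for the others; the sum over all points of `hk` is the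
`List` sum (`Fin.sum_univ_get` or similar): the difference is at least
`x² (- d + (λ / 2) (29/10) d - (1/4) ∑_{odd, k ≥ 5} k²) ≥ x² d (-1 + (3/8) (29/10) - 1/32)`, and
`(3/8) (29/10) = 1.0875`, so it is at least `x² d / 100`. -/
theorem orb_gen (K : ℕ) : ∃ N : ℕ, ∀ m : ℕ, N ≤ m → Even (m + 1) → ∀ l : List (Pt m), IsArr m l →
    (∀ P ∈ l, P.k ≤ K) →
    (8 * (l.map fun P => if P.k % 2 = 1 ∧ 5 ≤ P.k then P.k ^ 2 else 0).sum ≤ m + 1) →
    ∀ (x lam : ℝ) (z : Fin l.length → ℝ) (Bl : Finset (Fin l.length)), 0 < x → 3 / 4 ≤ lam →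
      lam ≤ 1 → (∀ j, j ∉ Bl → (l.get j).k = 2) →
      (∀ j ∈ Bl, (l.get j).k = 3 →
        lam * x ^ 2 ≤ (2 - z j) ^ 2 - 3 * x * (2 - z j) + 3 * x ^ 2) →
      (∀ j ∈ Bl, (l.get j).k % 2 = 0 → 6 ≤ (l.get j).k → 2 - z j ≤ (1 + lam / 2) * x) →
        orbCOneSq l (fun _ => x) z Bl + x ^ 2 * (m + 1) / 100 ≤
          3 * orbCTwo l (fun _ => x) z Bl := by
  classical
  obtain ⟨N, hN⟩ := hk_lower K (1 / 10) (by norm_num)
  refine ⟨N, fun m hm he l hl hK hodd x lam z Bl hx h34 h1 h2 h3 h6 => ?_⟩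
  have hlow := hN m hm he l hl hK
  have hdiff := orb_eq hl x z Bl h2
  have hk2 : ∀ j, 2 ≤ (l.get j).k := fun j => (hl.1 _ (List.get_mem l j)).1
  have hs1 : ((l.map fun P => hk P.k).sum : ℝ) = ∑ j, ((hk (l.get j).k : ℤ) : ℝ) := by
    rw [← Int.cast_sum]
    congr 1
    exact (Fin.sum_univ_fun_getElem l (fun P => hk P.k)).symm
  have hs2 : (((l.map fun P => if P.k % 2 = 1 ∧ 5 ≤ P.k then P.k ^ 2 else 0).sum : ℕ) : ℝ) =
      ∑ j, (if (l.get j).k % 2 = 1 ∧ 5 ≤ (l.get j).k then ((l.get j).k : ℝ) ^ 2 else 0) := by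
    rw [← Fin.sum_univ_fun_getElem l (fun P => if P.k % 2 = 1 ∧ 5 ≤ P.k then P.k ^ 2 else 0),
      Nat.cast_sum]
    refine Finset.sum_congr rfl fun j _ => ?_
    change ((if (l.get j).k % 2 = 1 ∧ 5 ≤ (l.get j).k then (l.get j).k ^ 2 else 0 : ℕ) : ℝ) = _
    split_ifs <;> simp
  rw [hs1] at hlow
  have hodd' : 8 * ∑ j, (if (l.get j).k % 2 = 1 ∧ 5 ≤ (l.get j).k then
      ((l.get j).k : ℝ) ^ 2 else 0) ≤ (m : ℝ) + 1 := by
    rw [← hs2]
    exact_mod_cast hodd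
  have hBl : ∀ j ∈ Bl, lam / 2 * x ^ 2 * (hk (l.get j).k : ℤ) -
      x ^ 2 / 4 * (if (l.get j).k % 2 = 1 ∧ 5 ≤ (l.get j).k then ((l.get j).k : ℝ) ^ 2 else 0) ≤
      (2 - z j) ^ 2 - (l.get j).k * x * (2 - z j) + (l.get j).k * x ^ 2 := by
    intro j hj
    have h7 := orb_point (l.get j).k (hk2 j) x (2 - z j) lam hx (by linarith) h1
      (fun h => h3 j hj h) (fun h h' => h6 j hj h h')
    refine le_trans (le_of_eq ?_) h7
    congr 1
    split_ifs
    · ring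
    · ring
  have hnB : ∀ j ∈ univ \ Bl, lam / 2 * x ^ 2 * (hk (l.get j).k : ℤ) -
      x ^ 2 / 4 * (if (l.get j).k % 2 = 1 ∧ 5 ≤ (l.get j).k then ((l.get j).k : ℝ) ^ 2 else 0) ≤
      x ^ 2 := by
    intro j hj
    have h7 : (l.get j).k = 2 := h2 j (mem_sdiff.mp hj).2
    rw [h7]
    have h8 : hk 2 = 2 := by decide
    rw [h8, if_neg (by omega)]
    push_cast
    nlinarith [sq_nonneg x]
  have hsum : ∑ j, (lam / 2 * x ^ 2 * (hk (l.get j).k : ℤ) -
      x ^ 2 / 4 * (if (l.get j).k % 2 = 1 ∧ 5 ≤ (l.get j).k then ((l.get j).k : ℝ) ^ 2 else 0)) ≤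
      ∑ _j ∈ univ \ Bl, x ^ 2 +
        ∑ j ∈ Bl, ((2 - z j) ^ 2 - (l.get j).k * x * (2 - z j) + (l.get j).k * x ^ 2) := by
    rw [← Finset.sum_sdiff (Finset.subset_univ Bl)]
    exact add_le_add (Finset.sum_le_sum hnB) (Finset.sum_le_sum hBl)
  rw [Finset.sum_sub_distrib, ← Finset.mul_sum, ← Finset.mul_sum] at hsum
  set A : ℝ := ∑ j, ((hk (l.get j).k : ℤ) : ℝ) with hA
  set O : ℝ := ∑ j, (if (l.get j).k % 2 = 1 ∧ 5 ≤ (l.get j).k then
      ((l.get j).k : ℝ) ^ 2 else 0) with hO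
  have hx2 : 0 < x ^ 2 := by positivity
  have hd : (0 : ℝ) ≤ (m : ℝ) + 1 := by positivity
  have e1 : 3 / 8 * x ^ 2 * (29 / 10 * ((m : ℝ) + 1)) ≤ lam / 2 * x ^ 2 * A := by
    apply mul_le_mul
    · nlinarith
    · linarith
    · positivity
    · positivity
  have e2 : x ^ 2 / 4 * O ≤ x ^ 2 / 4 * (((m : ℝ) + 1) / 8) :=
    mul_le_mul_of_nonneg_left (by linarith) (by positivity)
  have e3 : 0 ≤ x ^ 2 * ((m : ℝ) + 1) := by positivity
  nlinarith

/-- **Main theorem, all multiplicities.** PROOF. `hk_lower`, `orb_gen`. -/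
theorem main_all (K : ℕ) (ε : ℝ) (hε : 0 < ε) : ∃ N : ℕ, ∀ m : ℕ, N ≤ m → Even (m + 1) →
    ∀ l : List (Pt m), IsArr m l → (∀ P ∈ l, P.k ≤ K) →
      (3 - ε) * (m + 1) ≤ ((l.map fun P => hk P.k).sum : ℝ) ∧
      ((8 * (l.map fun P => if P.k % 2 = 1 ∧ 5 ≤ P.k then P.k ^ 2 else 0).sum ≤ m + 1) →
        ∀ (x lam : ℝ) (z : Fin l.length → ℝ) (Bl : Finset (Fin l.length)), 0 < x → 3 / 4 ≤ lam →
          lam ≤ 1 → (∀ j, j ∉ Bl → (l.get j).k = 2) →
          (∀ j ∈ Bl, (l.get j).k = 3 →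
            lam * x ^ 2 ≤ (2 - z j) ^ 2 - 3 * x * (2 - z j) + 3 * x ^ 2) →
          (∀ j ∈ Bl, (l.get j).k % 2 = 0 → 6 ≤ (l.get j).k → 2 - z j ≤ (1 + lam / 2) * x) →
            orbCOneSq l (fun _ => x) z Bl + x ^ 2 * (m + 1) / 100 ≤
              3 * orbCTwo l (fun _ => x) z Bl) := by
  obtain ⟨N1, h1⟩ := hk_lower K ε hε
  obtain ⟨N2, h2⟩ := orb_gen K
  refine ⟨max N1 N2, fun m hm he l hl hK => ⟨?_, ?_⟩⟩
  · exact h1 m (le_trans (le_max_left _ _) hm) he l hl hK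
  · exact h2 m (le_trans (le_max_right _ _) hm) he l hl hK

end Pool.Agent.Helper81.SBA
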