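import Pool.Agent.Helper81.SBA.Ev

/-!
# The local form of a point of odd multiplicity
-/

set_option autoImplicit false

open Real Module

namespace Pool.Agent.Helper81.SBA

private theorem evec_orth_last_tel (t c : ℝ) (n : ℕ) :
    2 * sin (t / 2) * ∑ i ∈ Finset.range n, cos (t * i + c) =
      sin (t * (n - 1 / 2) + c) - sin (c - t / 2) := by
  induction n with
  | zero =>
    have e : t * (((0 : ℕ) : ℝ) - 1 / 2) + c = c - t / 2 := by push_cast; ring
    rw [Finset.sum_range_zero, mul_zero, e, sub_self]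
  | succ n ih =>
    rw [Finset.sum_range_succ, mul_add, ih]
    have e1 : t * (((n + 1 : ℕ) : ℝ) - 1 / 2) + c = (t * n + c) + t / 2 := by push_cast; ring
    have e2 : t * ((n : ℝ) - 1 / 2) + c = (t * n + c) - t / 2 := by ring
    rw [e1, e2, sin_add, sin_sub]
    ring

private theorem evec_orth_last_cos {d : ℕ} {t : ℝ} (k : ℤ) (hd : t * d = 2 * π * k)
    (hs : sin (t / 2) ≠ 0) (c : ℝ) : ∑ j : Fin d, cos (t * j.val + c) = 0 := by
  rw [Fin.sum_univ_eq_sum_range (fun j => cos (t * j + c)) d]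
  have h := evec_orth_last_tel t c d
  have h2 : sin (t * (d - 1 / 2) + c) = sin (c - t / 2) := by
    have e : t * ((d : ℝ) - 1 / 2) + c = (c - t / 2) + k * (2 * π) := by
      linear_combination hd
    rw [e, Real.sin_add_int_mul_two_pi]
  rw [h2, sub_self] at h
  rcases mul_eq_zero.1 h with h3 | h3
  · exact absurd h3 (mul_ne_zero two_ne_zero hs)
  · exact h3

private theorem evec_orth_last_sin {d : ℕ} {t : ℝ} (k : ℤ) (hd : t * d = 2 * π * k)
    (hs : sin (t / 2) ≠ 0) (c : ℝ) : ∑ j : Fin d, sin (t * j.val + c) = 0 := by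
  rw [← evec_orth_last_cos k hd hs (c - π / 2)]
  refine Finset.sum_congr rfl fun j _ => ?_
  rw [← Real.cos_sub_pi_div_two]
  congr 1
  ring

private theorem evec_orth_last_ne {m : ℕ} (x : ℝ) (h0 : x ≠ 0) (h1 : |x| < (m : ℝ) + 1) :
    sin (π * x / (m + 1)) ≠ 0 := by
  have hm : (0 : ℝ) < (m : ℝ) + 1 := by positivity
  have hpi := Real.pi_pos
  rw [abs_lt] at h1
  have h2 : -π < π * x / (m + 1) := by
    rw [lt_div_iff₀ hm]
    nlinarith [h1.1]
  have h3 : π * x / (m + 1) < π := by
    rw [div_lt_iff₀ hm]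
    nlinarith [h1.2]
  rw [Ne, Real.sin_eq_zero_iff_of_lt_of_lt h2 h3]
  intro h
  rw [div_eq_zero_iff] at h
  rcases h with h | h
  · rcases mul_eq_zero.1 h with h | h
    · exact hpi.ne' h
    · exact h0 h
  · exact hm.ne' h

/-- The sum over `j` for `b < e`. -/
private theorem evec_orth_last_lt {m e : ℕ} (hm : m = 2 * e) (b : ℕ) (hb : b < e) (s : Bool)
    (c : ℝ) : ∑ j : Fin (m + 1), cos (π * j.val) * tr s (th m b * j.val + c) = 0 := by
  have hm0 : (0 : ℝ) < (m : ℝ) + 1 := by positivity
  have hm' := hm0.ne'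
  have hme : (m : ℝ) = 2 * e := by exact_mod_cast hm
  have hb1 : (b : ℝ) + 1 ≤ e := by exact_mod_cast hb
  have hb0 : (0 : ℝ) ≤ b := Nat.cast_nonneg b
  have hp1 : (th m b + π) * ((m + 1 : ℕ) : ℝ) = 2 * π * (((b : ℤ) + e + 1 : ℤ) : ℝ) := by
    unfold th
    push_cast
    field_simp
    rw [hme]
    ring
  have hp2 : sin ((th m b + π) / 2) ≠ 0 := by
    have e1 : (th m b + π) / 2 = π * ((b : ℝ) + e + 1) / (m + 1) := by
      unfold th
      field_simp
      rw [hme]
      ring
    rw [e1]
    refine evec_orth_last_ne _ (by positivity) ?_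
    rw [abs_of_pos (by positivity), hme]
    linarith
  have hq1 : (th m b - π) * ((m + 1 : ℕ) : ℝ) = 2 * π * (((b : ℤ) - e : ℤ) : ℝ) := by
    unfold th
    push_cast
    field_simp
    rw [hme]
    ring
  have hq2 : sin ((th m b - π) / 2) ≠ 0 := by
    have e1 : (th m b - π) / 2 = π * ((b : ℝ) - e) / (m + 1) := by
      unfold th
      field_simp
      rw [hme]
      ring
    rw [e1]
    refine evec_orth_last_ne _ (by linarith) ?_
    rw [abs_of_neg (by linarith), hme]
    linarith
  have key : ∀ j : Fin (m + 1), cos (π * j.val) * tr s (th m b * j.val + c) =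
      if s = true then cos ((th m b + π) * j.val + c) / 2 + cos ((th m b - π) * j.val + c) / 2
      else sin ((th m b + π) * j.val + c) / 2 + sin ((th m b - π) * j.val + c) / 2 := by
    intro j
    have e1 : (th m b + π) * j.val + c = (th m b * j.val + c) + π * j.val := by ring
    have e2 : (th m b - π) * j.val + c = (th m b * j.val + c) - π * j.val := by ring
    rw [e1, e2]
    generalize th m b * j.val + c = A
    generalize π * j.val = B
    unfold tr
    cases s
    · simp only [Bool.false_eq_true, if_false]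
      rw [sin_add, sin_sub]
      ring
    · simp only [if_true]
      rw [cos_add, cos_sub]
      ring
  rw [Finset.sum_congr rfl fun j _ => key j]
  cases s
  · simp only [Bool.false_eq_true, if_false]
    rw [Finset.sum_add_distrib, ← Finset.sum_div, ← Finset.sum_div,
      evec_orth_last_sin _ hp1 hp2, evec_orth_last_sin _ hq1 hq2]
    ring
  · simp only [if_true]
    rw [Finset.sum_add_distrib, ← Finset.sum_div, ← Finset.sum_div,
      evec_orth_last_cos _ hp1 hp2, evec_orth_last_cos _ hq1 hq2]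
    ring

/-- Scalar products with the alternating eigenvectors, `m = 2 e`, frequency `th m e = π`, `ph m e = 0`.
PROOF. `evec m e true a j i = sin (π (a+1) (i+1) / (m+1)) * cos (π j)`, `cos (π j) = (-1)^j`. The sum over
`i` is `sin_orth`: `(m+1)/2` if `a = a'`, else `0`. The sum over `j`: for `b = e` it is `∑ 1 = m + 1`; for
`b < e` it is `0`: the sum over `j` of `cos (π j) * tr s (th m b * j - c)` is half the sum of
`tr s ((th m b + π) j - c) + tr s ((th m b - π) j - c)`, both frequencies are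
`2 π * integer / (m + 1)` (`th m b ± π = π (2b + 1 ± (2e + 1)) / (2e + 1)`), not multiples of `2 π`
(compare `tr_orth` and the lemmas `ST5_*` in `Std.lean`, which may be copied). -/
theorem evec_orth_last {m e : ℕ} (hm : m = 2 * e) (b : ℕ) (hb : b ≤ e) (s : Bool)
    (hs : b = e → s = true) (a a' : ℕ) (ha : a < m) (ha' : a' < m) :
    ∑ j, ∑ i, evec m e true a j i * evec m b s a' j i =
      if b = e ∧ a = a' then (m + 1 : ℝ) ^ 2 / 2 else 0 := by
  have hm0 : (0 : ℝ) < (m : ℝ) + 1 := by positivity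
  have hm' := hm0.ne'
  have hme : (m : ℝ) = 2 * e := by exact_mod_cast hm
  have hth : th m e = π := by
    unfold th
    rw [hme]
    have h1 : (2 * (e : ℝ) + 1) ≠ 0 := by positivity
    field_simp
  have hph : ph m e = 0 := by
    unfold ph
    rw [hth, sub_self, zero_div]
  have hJ : ∀ i : Fin m, ∑ j : Fin (m + 1), cos (π * j.val) *
      tr s (th m b * j.val - (i.val + 1) * ph m b) = if b = e then (m : ℝ) + 1 else 0 := by
    intro i
    by_cases hbe : b = e
    · have hs' := hs hbe
      subst hbe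
      subst hs'
      rw [if_pos rfl, hth, hph]
      have h1 : ∀ j : Fin (m + 1), cos (π * j.val) *
          tr true (π * j.val - ((i.val : ℝ) + 1) * 0) = 1 := by
        intro j
        have h2 : sin (π * j.val) = 0 := by
          rw [mul_comm]
          exact Real.sin_nat_mul_pi _
        have h3 := Real.sin_sq_add_cos_sq (π * j.val)
        unfold tr
        rw [if_pos rfl, mul_zero, sub_zero, ← sq]
        rw [h2] at h3
        linarith
      rw [Finset.sum_congr rfl fun j _ => h1 j]
      simp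
    · rw [if_neg hbe]
      have h1 := evec_orth_last_lt hm b (lt_of_le_of_ne hb hbe) s (-((i.val + 1) * ph m b))
      rw [← h1]
      refine Finset.sum_congr rfl fun j _ => ?_
      rw [sub_eq_add_neg]
  rw [Finset.sum_comm]
  have h1 : ∀ i : Fin m, ∑ j : Fin (m + 1), evec m e true a j i * evec m b s a' j i =
      (sin (π * (a + 1) * (i.val + 1) / (m + 1)) * sin (π * (a' + 1) * (i.val + 1) / (m + 1))) *
        (if b = e then (m : ℝ) + 1 else 0) := by
    intro i
    rw [← hJ i, Finset.mul_sum]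
    refine Finset.sum_congr rfl fun j _ => ?_
    simp only [evec, hth, hph, mul_zero, sub_zero]
    have h2 : tr true (π * j.val) = cos (π * j.val) := by
      unfold tr
      rw [if_pos rfl]
    rw [h2]
    ring
  rw [Finset.sum_congr rfl fun i _ => h1 i, ← Finset.sum_mul, sin_orth a a' ha ha']
  by_cases h3 : a = a'
  · by_cases h4 : b = e
    · rw [if_pos h3, if_pos h4, if_pos ⟨h4, h3⟩]
      ring
    · rw [if_neg h4, mul_zero, if_neg fun h => h4 h.1]
  · rw [if_neg h3, zero_mul, if_neg fun h => h3 h.2]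

/-- PROOF. `cos (π (a + 1) / (m + 1)) < cos (ph m b)`, `ph m b = π (e - b) / (m + 1)` and
`0 ≤ e - b < a + 1 ≤ m`, strict monotonicity of `cos` on `[0, π]`; compare `lam_pos`. -/
theorem lam_pos_odd {m e : ℕ} (hm : m = 2 * e) (b a : ℕ) (hb : b ≤ e) (ha : a < m)
    (hab : e < a + 1 + b) : 0 < lam m b a := by
  have hm0 : (0 : ℝ) < (m : ℝ) + 1 := by positivity
  have hme : (m : ℝ) = 2 * e := by exact_mod_cast hm
  have hpi := Real.pi_pos
  have hb' : (b : ℝ) ≤ e := by exact_mod_cast hb
  have hb0 : (0 : ℝ) ≤ (b : ℝ) := Nat.cast_nonneg _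
  have he0 : (0 : ℝ) ≤ (e : ℝ) := Nat.cast_nonneg _
  have ha' : (a : ℝ) + 1 ≤ m := by exact_mod_cast ha
  have hab' : (e : ℝ) < a + 1 + b := by exact_mod_cast hab
  have h1 : ph m b = π * (e - b) / (m + 1) := by
    unfold ph th
    field_simp
    rw [hme]
    ring
  have h2 : 0 ≤ ph m b := by
    rw [h1]
    exact div_nonneg (mul_nonneg hpi.le (by linarith)) hm0.le
  have hc : 0 < cos (ph m b) := cos_ph_pos b (by omega)
  have hx : π * (a + 1) / (m + 1) ≤ π := by
    rw [div_le_iff₀ hm0]
    exact mul_le_mul_of_nonneg_left (by linarith) hpi.le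
  have hlt : ph m b < π * (a + 1) / (m + 1) := by
    rw [h1]
    apply div_lt_div_of_pos_right _ hm0
    exact mul_lt_mul_of_pos_left (by linarith) hpi
  have hcos := Real.cos_lt_cos_of_nonneg_of_le_pi h2 hx hlt
  unfold lam
  rw [sub_pos, div_lt_one hc]
  exact hcos

/-- The interactions are linear in the second argument. -/
private def W2_r (m : ℕ) (x : Fin (m + 1) → Fin m → ℝ) :
    (Fin (m + 1) → Fin m → ℝ) →ₗ[ℝ] ℝ where
  toFun y := itr m x y
  map_add' y z := by
    unfold itr
    simp only [← Finset.sum_add_distrib]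
    refine Finset.sum_congr rfl fun j _ => Finset.sum_congr rfl fun j' _ =>
      Finset.sum_congr rfl fun i _ => Finset.sum_congr rfl fun i' _ => ?_
    split_ifs
    · simp only [Pi.add_apply]
      ring
    · ring
  map_smul' c y := by
    unfold itr
    simp only [RingHom.id_apply, smul_eq_mul, Finset.mul_sum]
    refine Finset.sum_congr rfl fun j _ => Finset.sum_congr rfl fun j' _ =>
      Finset.sum_congr rfl fun i _ => Finset.sum_congr rfl fun i' _ => ?_
    split_ifs
    · simp only [Pi.smul_apply, smul_eq_mul]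
      ring
    · ring

/-- The interactions are linear in the first argument. -/
private def W2_l (m : ℕ) (y : Fin (m + 1) → Fin m → ℝ) :
    (Fin (m + 1) → Fin m → ℝ) →ₗ[ℝ] ℝ where
  toFun x := itr m x y
  map_add' x z := by
    unfold itr
    simp only [← Finset.sum_add_distrib]
    refine Finset.sum_congr rfl fun j _ => Finset.sum_congr rfl fun j' _ =>
      Finset.sum_congr rfl fun i _ => Finset.sum_congr rfl fun i' _ => ?_
    split_ifs
    · simp only [Pi.add_apply]
      ring
    · ring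
  map_smul' c x := by
    unfold itr
    simp only [RingHom.id_apply, smul_eq_mul, Finset.mul_sum]
    refine Finset.sum_congr rfl fun j _ => Finset.sum_congr rfl fun j' _ =>
      Finset.sum_congr rfl fun i _ => Finset.sum_congr rfl fun i' _ => ?_
    split_ifs
    · simp only [Pi.smul_apply, smul_eq_mul]
      ring
    · ring

/-- The scalar product. -/
private def W2_d (m : ℕ) (x : Fin (m + 1) → Fin m → ℝ) :
    (Fin (m + 1) → Fin m → ℝ) →ₗ[ℝ] ℝ where
  toFun y := ∑ j, ∑ i, x j i * y j i
  map_add' y z := by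
    simp only [← Finset.sum_add_distrib, Pi.add_apply]
    exact Finset.sum_congr rfl fun j _ => Finset.sum_congr rfl fun i _ => by ring
  map_smul' c y := by
    simp only [RingHom.id_apply, smul_eq_mul, Finset.mul_sum, Pi.smul_apply]
    exact Finset.sum_congr rfl fun j _ => Finset.sum_congr rfl fun i _ => by ring

/-- The form on the combinations of orthogonal eigenvectors. -/
private theorem W2_comb {ι : Type} [Fintype ι] [DecidableEq ι] {m : ℕ}
    (v : ι → Fin (m + 1) → Fin m → ℝ) (N Λ : ι → ℝ)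
    (ho : ∀ k l, ∑ j, ∑ i, v k j i * v l j i = if k = l then N k else 0)
    (hi : ∀ k (x : Fin (m + 1) → Fin m → ℝ), ∑ j, ∑ i, x j i * v k j i -
      (itr m x (v k) + itr m (v k) x) / 2 = Λ k * ∑ j, ∑ i, x j i * v k j i) (c : ι → ℝ) :
    qf m (∑ k, c k • v k) = ∑ k, Λ k * N k * c k ^ 2 := by
  obtain ⟨y, hy⟩ : ∃ y, y = ∑ k, c k • v k := ⟨_, rfl⟩
  rw [← hy]
  have hdot : ∀ k, ∑ j, ∑ i, y j i * v k j i = c k * N k := by
    intro k
    have h1 : ∑ j, ∑ i, y j i * v k j i = W2_d m (v k) y := by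
      change _ = ∑ j, ∑ i, v k j i * y j i
      exact Finset.sum_congr rfl fun j _ => Finset.sum_congr rfl fun i _ => mul_comm _ _
    rw [h1, hy, map_sum, Finset.sum_eq_single k]
    · rw [map_smul, smul_eq_mul]
      change c k * ∑ j, ∑ i, v k j i * v k j i = _
      rw [ho, if_pos rfl]
    · intro l _ hl
      rw [map_smul, smul_eq_mul]
      change c l * ∑ j, ∑ i, v k j i * v l j i = _
      rw [ho, if_neg fun h => hl h.symm, mul_zero]
    · intro hn
      exact absurd (Finset.mem_univ k) hn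
  have hq : qf m y = W2_d m y y - (W2_r m y y + W2_l m y y) / 2 := by
    change qf m y = ∑ j, ∑ i, y j i * y j i - (itr m y y + itr m y y) / 2
    unfold qf
    have : ∑ j, ∑ i, y j i ^ 2 = ∑ j, ∑ i, y j i * y j i :=
      Finset.sum_congr rfl fun j _ => Finset.sum_congr rfl fun i _ => by ring
    rw [this]
    ring
  have hsum : ∀ f : (Fin (m + 1) → Fin m → ℝ) →ₗ[ℝ] ℝ, f y = ∑ k, c k * f (v k) := by
    intro f
    conv_lhs => rw [hy]
    rw [map_sum]
    exact Finset.sum_congr rfl fun k _ => by rw [map_smul, smul_eq_mul]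
  rw [hq, hsum (W2_d m y), hsum (W2_r m y), hsum (W2_l m y), ← Finset.sum_add_distrib,
    Finset.sum_div, ← Finset.sum_sub_distrib]
  refine Finset.sum_congr rfl fun k _ => ?_
  have h1 := hi k y
  have h2 : c k * W2_d m y (v k) - (c k * W2_r m y (v k) + c k * W2_l m y (v k)) / 2 =
      c k * (∑ j, ∑ i, y j i * v k j i - (itr m y (v k) + itr m (v k) y) / 2) := by
    change c k * (∑ j, ∑ i, y j i * v k j i) -
      (c k * itr m y (v k) + c k * itr m (v k) y) / 2 = _
    ring
  rw [h2, h1, hdot k]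
  ring

private theorem W2_zero (m : ℕ) : qf m 0 = 0 := by
  unfold qf itr
  simp

private theorem W2_range {ι : Type} [Fintype ι] [DecidableEq ι] {m : ℕ}
    (v : ι → Fin (m + 1) → Fin m → ℝ) (N Λ : ι → ℝ)
    (ho : ∀ k l, ∑ j, ∑ i, v k j i * v l j i = if k = l then N k else 0)
    (hi : ∀ k (x : Fin (m + 1) → Fin m → ℝ), ∑ j, ∑ i, x j i * v k j i -
      (itr m x (v k) + itr m (v k) x) / 2 = Λ k * ∑ j, ∑ i, x j i * v k j i)
    (hN : ∀ k, 0 < N k) (hΛ : ∀ k, 0 < Λ k) :
    ∃ W : Submodule ℝ (Fin (m + 1) → Fin m → ℝ), Fintype.card ι = finrank ℝ W ∧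
      ∀ x ∈ W, x ≠ 0 → 0 < qf m x := by
  have hpos : ∀ c : ι → ℝ, c ≠ 0 → 0 < qf m (Fintype.linearCombination ℝ v c) := by
    intro c hc
    have h1 : Fintype.linearCombination ℝ v c = ∑ k, c k • v k := rfl
    rw [h1, W2_comb v N Λ ho hi]
    obtain ⟨k0, hk0⟩ := Function.ne_iff.1 hc
    refine Finset.sum_pos' (fun k _ => mul_nonneg (mul_pos (hΛ k) (hN k)).le (sq_nonneg _))
      ⟨k0, Finset.mem_univ _, mul_pos (mul_pos (hΛ k0) (hN k0)) (sq_pos_of_ne_zero hk0)⟩
  refine ⟨LinearMap.range (Fintype.linearCombination ℝ v), ?_, ?_⟩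
  · have hinj : Function.Injective (Fintype.linearCombination ℝ v) := by
      rw [injective_iff_map_eq_zero]
      intro c hc
      by_contra hne
      have h1 := hpos c hne
      rw [hc, W2_zero] at h1
      exact lt_irrefl _ h1
    rw [LinearMap.finrank_range_of_inj hinj, Module.finrank_fintype_fun_eq_card]
  · rintro _ ⟨c, rfl⟩ hne
    apply hpos
    rintro rfl
    exact hne (map_zero _)

/-- The indices: `(b, s, a)` with `b < e`, `e ≤ a + b`, and `(e, true, a)`. -/
private abbrev W2_I (e : ℕ) : Type := (Σ b : Fin e, Bool × Fin (e + b.val)) ⊕ Fin (2 * e)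

private theorem W2_sum (n E : ℕ) :
    ∑ b ∈ Finset.range n, 2 * (E + b) + n = 2 * E * n + n * n := by
  induction n with
  | zero => simp
  | succ n ih =>
    rw [Finset.sum_range_succ]
    have h1 : ∑ b ∈ Finset.range n, 2 * (E + b) + 2 * (E + n) + (n + 1) =
        (∑ b ∈ Finset.range n, 2 * (E + b) + n) + (2 * (E + n) + 1) := by ring
    rw [h1, ih]
    ring

private theorem W2_card (e : ℕ) : Fintype.card (W2_I e) = e * (3 * e + 1) := by
  have h1 : Fintype.card (W2_I e) = ∑ b ∈ Finset.range e, 2 * (e + b) + 2 * e := by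
    rw [Fintype.card_sum, Fintype.card_sigma, Fintype.card_fin]
    congr 1
    rw [← Fin.sum_univ_eq_sum_range (fun b => 2 * (e + b)) e]
    refine Finset.sum_congr rfl fun b _ => ?_
    rw [Fintype.card_prod, Fintype.card_bool, Fintype.card_fin]
  have h2 := W2_sum e e
  have h3 : e * (3 * e + 1) = 2 * e * e + e * e + e := by ring
  rw [h1, h3]
  omega

private noncomputable def W2_v (m e : ℕ) : W2_I e → Fin (m + 1) → Fin m → ℝ
  | Sum.inl k => evec m k.1.val k.2.1 (k.2.2.val + (e - k.1.val))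
  | Sum.inr a => evec m e true a.val

private noncomputable def W2_N (m e : ℕ) : W2_I e → ℝ
  | Sum.inl _ => (((m : ℝ) + 1) / 2) ^ 2
  | Sum.inr _ => ((m : ℝ) + 1) ^ 2 / 2

private noncomputable def W2_L (m e : ℕ) : W2_I e → ℝ
  | Sum.inl k => lam m k.1.val (k.2.2.val + (e - k.1.val))
  | Sum.inr a => lam m e a.val

private theorem W2_orth {m e : ℕ} (hm : m = 2 * e) (k l : W2_I e) [Decidable (k = l)] :
    ∑ j, ∑ i, W2_v m e k j i * W2_v m e l j i = if k = l then W2_N m e k else 0 := by
  have hlast : ∀ (a : Fin (2 * e)) (b : Fin e) (s : Bool) (a' : Fin (e + b.val)),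
      ∑ j, ∑ i, evec m e true a.val j i * evec m b.val s (a'.val + (e - b.val)) j i = 0 := by
    intro a b s a'
    have hb := b.2
    have ha := a.2
    have ha' := a'.2
    rw [evec_orth_last hm b.val hb.le s (fun h => by omega) a.val _ (by omega) (by omega), if_neg]
    rintro ⟨h1, -⟩
    omega
  rcases k with ⟨b, s, a⟩ | a <;> rcases l with ⟨b', s', a'⟩ | a'
  · have hb := b.2
    have hb' := b'.2
    have ha := a.2
    have ha' := a'.2
    change ∑ j, ∑ i, evec m b.val s (a.val + (e - b.val)) j i *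
      evec m b'.val s' (a'.val + (e - b'.val)) j i = _
    rw [evec_orth b.val b'.val (by omega) (by omega) s s' _ _ (by omega) (by omega)]
    refine if_congr ⟨?_, ?_⟩ rfl rfl
    · rintro ⟨h1, rfl, h3⟩
      have h4 : b = b' := Fin.ext h1
      subst h4
      have h5 : a = a' := Fin.ext (by omega)
      rw [h5]
    · intro h
      cases h
      exact ⟨rfl, rfl, rfl⟩
  · rw [if_neg (by simp)]
    rw [← hlast a' b s a]
    exact Finset.sum_congr rfl fun j _ => Finset.sum_congr rfl fun i _ => mul_comm _ _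
  · rw [if_neg (by simp)]
    exact hlast a b' s' a'
  · have ha := a.2
    have ha' := a'.2
    change ∑ j, ∑ i, evec m e true a.val j i * evec m e true a'.val j i = _
    rw [evec_orth_last hm e le_rfl true (fun _ => rfl) a.val a'.val (by omega) (by omega)]
    refine if_congr ⟨?_, ?_⟩ rfl rfl
    · rintro ⟨-, h3⟩
      rw [Fin.ext h3]
    · intro h
      cases h
      exact ⟨rfl, rfl⟩

/-- PROOF. As `qf_pos`, with the index set `K` of all `(b, s, a)` with `b < e`, `e < a + 1 + b` and of
all `(e, true, a)`, `a < m`, in `Fin (e + 1) × Bool × Fin m`. It has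
`2 ∑_{b < e} (e + b) + 2 e = 3 e ^ 2 + e` elements. The vectors `evec m b s a`, `(b, s, a) ∈ K`, are
orthogonal (`evec_orth`, `evec_orth_last`) with squared norm `((m+1)/2)^2` or `(m+1)^2/2`, and
`itr_evec` (hypothesis `2 * b < m + 1`, which holds for `b = e` too) gives
`qf (∑ c_k evec_k) = ∑ lam_k |evec_k|² c_k²`, which is positive by `lam_pos_odd` unless `c = 0`
(compare `qf_comb`). For `e = 0` take `W = ⊥`. -/
theorem qf_pos_odd {m e : ℕ} (hm : m = 2 * e) :
    ∃ W : Submodule ℝ (Fin (m + 1) → Fin m → ℝ), e * (3 * e + 1) ≤ finrank ℝ W ∧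
      ∀ x ∈ W, x ≠ 0 → 0 < qf m x := by
  classical
  have hm0 : (0 : ℝ) < (m : ℝ) + 1 := by positivity
  obtain ⟨W, h1, h2⟩ := W2_range (W2_v m e) (W2_N m e) (W2_L m e)
    (fun k l => W2_orth hm k l) (fun k x => by
      rcases k with ⟨b, s, a⟩ | a
      · have hb := b.2
        exact itr_evec (m := m) b.val (by omega) s _ x
      · exact itr_evec (m := m) e (by omega) true _ x) (fun k => by
      rcases k with k | k
      · change 0 < (((m : ℝ) + 1) / 2) ^ 2
        positivity
      · change 0 < ((m : ℝ) + 1) ^ 2 / 2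
        positivity) (fun k => by
      rcases k with ⟨b, s, a⟩ | a
      · have hb := b.2
        have ha := a.2
        exact lam_pos_odd hm b.val (a.val + (e - b.val)) hb.le (by omega) (by omega)
      · have ha := a.2
        exact lam_pos_odd hm e a.val le_rfl (by omega) (by omega))
  exact ⟨W, by rw [← h1, W2_card], h2⟩

/-- PROOF. As `rep_twist`: the Coxeter element `R = rep (run m 0 m)` maps `v_i` to `- v_{i+1}`
(`cox_shift`), `v_{m-1}` to `∑ v_i` (`cox_last`). So `R ^ i v_0 = (-1)^i v_i` for `i < m`,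
`R ^ m v_0 = (-1)^(m-1) ∑ v_i = - ∑ v_i`, `R ^ (m+1) v_0 = - (- (∑ v_i - v_0) + ∑ v_i) = - v_0`, and
`R ^ (m+1)` commutes with `R`, so it is `-1` on all `v_i`. -/
theorem rep_twist_neg {m : ℕ} (hm : Even m) (b : Fin m → ℝ) :
    rep ℝ m (twist m 0 (m + 1)) b = -b := by
  rcases Nat.eq_zero_or_pos m with rfl | hm1
  · funext i
    exact i.elim0
  obtain ⟨c, hc⟩ : ∃ c, c = rep ℝ m (run m 0 m) := ⟨_, rfl⟩
  have e0 : rep ℝ m (twist m 0 (m + 1)) = c ^ (m + 1) := by
    unfold twist
    rw [map_pow, hc, Nat.add_sub_cancel]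
  rw [e0]
  have hshift : ∀ i, i + 1 < m → c (vb ℝ m i) = -vb ℝ m (i + 1) := by
    intro i hi
    rw [hc]
    exact cox_shift hi le_rfl
  have hlast : c (vb ℝ m (m - 1)) = ∑ i ∈ Finset.range m, vb ℝ m i := by
    have h1 := cox_last (m := m) (n := m - 1) (by omega)
    rw [Nat.sub_add_cancel hm1] at h1
    rw [hc]
    exact h1
  have hsum : c (∑ i ∈ Finset.range m, vb ℝ m i) = vb ℝ m 0 := by
    have h1 : ∑ i ∈ Finset.range m, vb ℝ m i =
        (∑ i ∈ Finset.range (m - 1), vb ℝ m i) + vb ℝ m (m - 1) := by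
      rw [← Finset.sum_range_succ, Nat.sub_add_cancel hm1]
    have h2 : ∑ i ∈ Finset.range m, vb ℝ m i =
        (∑ i ∈ Finset.range (m - 1), vb ℝ m (i + 1)) + vb ℝ m 0 := by
      rw [← Finset.sum_range_succ', Nat.sub_add_cancel hm1]
    have h3 : c (∑ i ∈ Finset.range (m - 1), vb ℝ m i) =
        -∑ i ∈ Finset.range (m - 1), vb ℝ m (i + 1) := by
      rw [map_sum, ← Finset.sum_neg_distrib]
      refine Finset.sum_congr rfl fun i hi => hshift i ?_
      have := Finset.mem_range.1 hi
      omega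
    rw [h1, map_add, h3, hlast, h2]
    abel
  have hpow : ∀ k, k < m → (c ^ k) (vb ℝ m 0) = (-1 : ℝ) ^ k • vb ℝ m k := by
    intro k
    induction k with
    | zero =>
      intro _
      rw [pow_zero, pow_zero, one_smul]
      rfl
    | succ k ih =>
      intro hk
      rw [pow_succ', LinearEquiv.mul_apply, ih (by omega), map_smul, hshift k hk, pow_succ,
        smul_neg, mul_neg, mul_one, neg_smul]
  have hm0 : (c ^ (m + 1)) (vb ℝ m 0) = -vb ℝ m 0 := by
    obtain ⟨k, hk⟩ := hm
    have h1 : c ^ (m + 1) = c * (c * c ^ (m - 1)) := by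
      rw [← pow_succ', ← pow_succ']
      congr 1
      omega
    have h2 : (-1 : ℝ) ^ (m - 1) = -1 := by
      have h3 : m - 1 = 2 * (k - 1) + 1 := by omega
      rw [h3, pow_succ, pow_mul]
      norm_num
    rw [h1, LinearEquiv.mul_apply, LinearEquiv.mul_apply, hpow (m - 1) (by omega), h2, neg_smul,
      one_smul, map_neg, map_neg, hlast, hsum]
  have hall : ∀ k, k < m → (c ^ (m + 1)) (vb ℝ m k) = -vb ℝ m k := by
    intro k hk
    have h1 : (c ^ (m + 1)) ((c ^ k) (vb ℝ m 0)) = -(c ^ k) (vb ℝ m 0) := by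
      rw [← LinearEquiv.mul_apply, ← pow_add, add_comm, pow_add, LinearEquiv.mul_apply, hm0, map_neg]
    rw [hpow k hk, map_smul, ← smul_neg] at h1
    exact smul_right_injective _ (pow_ne_zero k (by norm_num : (-1 : ℝ) ≠ 0)) h1
  have hx : b = ∑ i : Fin m, b i • vb ℝ m i := by
    funext j
    rw [Finset.sum_apply, Finset.sum_eq_single j]
    · simp [vb]
    · intro i _ hij
      have : ¬ j.val = i.val := fun h => hij (Fin.ext h.symm)
      simp [vb, this]
    · intro h
      exact absurd (Finset.mem_univ j) h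
  conv_lhs => rw [hx]
  rw [map_sum]
  conv_rhs => rw [hx]
  rw [← Finset.sum_neg_distrib]
  refine Finset.sum_congr rfl fun i _ => ?_
  rw [map_smul, hall i i.2, smul_neg]

/-- The standard word as a list of pairs. -/
private def std_loc_odd_w (m : ℕ) : List (BraidGroup m × Fin m) :=
  (List.replicate (m + 1) ((List.finRange m).map fun i => ((1 : BraidGroup m), i))).flatten

private theorem std_loc_odd_bl {m : ℕ} : (std_loc_odd_w m).map bl = stdL m := by
  unfold std_loc_odd_w stdL
  rw [List.map_flatten, List.map_replicate, List.map_map]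
  have h1 : (bl ∘ fun i => ((1 : BraidGroup m), i)) = (sigma : Fin m → BraidGroup m) := by
    funext i
    change 1 * sigma i * 1⁻¹ = sigma i
    rw [one_mul, inv_one, mul_one]
  rw [h1]

private theorem std_loc_odd_vl {m : ℕ} : (std_loc_odd_w m).map vl = stdW m := by
  unfold std_loc_odd_w stdW
  rw [List.map_flatten, List.map_replicate, List.map_map]
  have h1 : (do let a ← List.finRange m
                pure (a : ℕ)) = (List.finRange m).map (fun a : Fin m => (a : ℕ)) := by
    change List.flatMap (fun a => [((a : Fin m) : ℕ)]) (List.finRange m) = _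
    exact List.flatMap_pure_eq_map _ _
  have h2 : (vl ∘ fun i => ((1 : BraidGroup m), i)) =
      ((fun i => vb ℝ m i) ∘ fun a : Fin m => (a : ℕ)) := by
    funext i
    change rep ℝ m 1 (vb ℝ m i) = vb ℝ m i
    rw [map_one]
    rfl
  rw [h1, List.map_map, h2]

private theorem std_loc_odd_pX {m : ℕ} (hm : Even m) (b : Fin m → ℝ) :
    (obj (ω := om ℝ m) (stdW m)).p ((obj (ω := om ℝ m) (stdW m)).X b) = -(2 : ℝ) • b := by
  have h1 := obj_A (std_loc_odd_w m) b
  rw [std_loc_odd_bl, stdL_prod, rep_twist_neg hm, std_loc_odd_vl, QO.A_apply] at h1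
  have h2 : b + (obj (ω := om ℝ m) (stdW m)).p ((obj (ω := om ℝ m) (stdW m)).X b) = -b := h1
  rw [← eq_sub_iff_add_eq'] at h2
  rw [h2, neg_smul, two_smul]
  abel

/-- PROOF. `Q = obj (stdW m)`; `Q.A b = - b` (`obj_A` for the standard word, `rep_twist_neg`), so
`Q.p (Q.X b) = - 2 b`. Let `π x = x + (1/2) X (p x)`. Then `p (π x) = 0` and `L (π x) (π x) = L x x`:
`L x (X b) = om (p x) b`, `L (X b) x = L x (X b) - om (p (X b)) (p x) = om (p x) b + 2 om b (p x)`,
`L (X b) (X b) = om (p (X b)) b = 0`; for `b = p x` all are `0`. With `f` of `model_std` and `W` of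
`qf_pos_odd` let `F` be the range of `π ∘ f` on `W`: `L (π (f x)) (π (f x)) = qf x > 0` for `x ≠ 0`, so
the map is injective. -/
theorem std_loc_odd {m e : ℕ} (hm : m = 2 * e) :
    (obj (ω := om ℝ m) (stdW m)).Loc (e * (3 * e + 1)) := by
  have heven : Even m := ⟨e, by omega⟩
  obtain ⟨f, hf⟩ := model_std m
  obtain ⟨W, hW, hpos⟩ := qf_pos_odd hm
  have hZ := std_loc_odd_pX heven
  generalize obj (ω := om ℝ m) (stdW m) = Q at *
  let g : Q.E →ₗ[ℝ] Q.E := LinearMap.id + (1 / 2 : ℝ) • (Q.X ∘ₗ Q.p)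
  have hg : ∀ x, g x = x + (1 / 2 : ℝ) • Q.X (Q.p x) := fun _ => rfl
  have hp : ∀ x, Q.p (g x) = 0 := by
    intro x
    rw [hg, map_add, map_smul, hZ, smul_smul]
    norm_num
  have hL : ∀ x, Q.L (g x) (g x) = Q.L x x := by
    intro x
    have e1 : Q.L x (Q.X (Q.p x)) = 0 := by rw [Q.hX, om_self]
    have e2 : Q.L (Q.X (Q.p x)) x = 0 := by
      have h := Q.rel (Q.X (Q.p x)) x
      rw [e1, hZ, map_smul, LinearMap.smul_apply, om_self, smul_zero, neg_zero, sub_zero] at h
      exact h
    have e3 : Q.L (Q.X (Q.p x)) (Q.X (Q.p x)) = 0 := by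
      rw [Q.hX, hZ, map_smul, LinearMap.smul_apply, om_self, smul_zero]
    rw [hg]
    simp only [map_add, LinearMap.add_apply, map_smul, LinearMap.smul_apply, e1, e2, e3,
      smul_zero, add_zero]
  refine ⟨LinearMap.range ((g ∘ₗ f) ∘ₗ W.subtype), ?_, ?_⟩
  · rw [LinearMap.finrank_range_of_inj]
    · exact hW
    · rw [injective_iff_map_eq_zero]
      intro x hx
      have hx' : g (f x.1) = 0 := hx
      by_contra hne
      have hne' : x.1 ≠ 0 := fun h0 => hne (Subtype.ext h0)
      have h3 := hpos x.1 x.2 hne'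
      rw [← hf, ← hL, hx', map_zero] at h3
      exact lt_irrefl _ h3
  · rintro _ ⟨x, rfl⟩
    refine ⟨hp _, ?_⟩
    change 0 ≤ Q.L (g (f x.1)) (g (f x.1))
    rw [hL, hf]
    by_cases h0 : x.1 = 0
    · rw [← hf, h0, map_zero, map_zero]
    · exact (hpos x.1 x.2 h0).le

private theorem oP_loc_odd_expand {m : ℕ} (b : Fin m → ℝ) : b = ∑ i : Fin m, b i • vb ℝ m i := by
  funext j
  rw [Finset.sum_apply, Finset.sum_eq_single j]
  · simp [vb]
  · intro i _ hij
    have : ¬ j.val = i.val := fun h => hij (Fin.ext h.symm)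
    simp [vb, this]
  · intro h
    exact absurd (Finset.mem_univ j) h

/-- The standard word as a list of pairs. -/
private def oP_loc_odd_w (m : ℕ) : List (BraidGroup m × Fin m) :=
  (List.replicate (m + 1) ((List.finRange m).map fun i => ((1 : BraidGroup m), i))).flatten

private theorem oP_loc_odd_vl {m : ℕ} : (oP_loc_odd_w m).map vl = stdW m := by
  unfold oP_loc_odd_w stdW
  rw [List.map_flatten, List.map_replicate, List.map_map]
  have h1 : (do let a ← List.finRange m
                pure (a : ℕ)) = (List.finRange m).map (fun a : Fin m => (a : ℕ)) := by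
    change List.flatMap (fun a => [((a : Fin m) : ℕ)]) (List.finRange m) = _
    exact List.flatMap_pure_eq_map _ _
  have h2 : (vl ∘ fun i => ((1 : BraidGroup m), i)) =
      ((fun i => vb ℝ m i) ∘ fun a : Fin m => (a : ℕ)) := by
    funext i
    change rep ℝ m 1 (vb ℝ m i) = vb ℝ m i
    rw [map_one]
    rfl
  rw [h1, List.map_map, h2]

/-- The embedding of the vectors of a local word. -/
private noncomputable def oP_loc_odd_J {m : ℕ} (P : Pt m) (n : ℕ) : (Fin n → ℝ) →ₗ[ℝ] (Fin m → ℝ) where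
  toFun x := ∑ q : Fin n, x q • rep ℝ m P.g (vb ℝ m (P.a + q.val))
  map_add' x y := by
    rw [← Finset.sum_add_distrib]
    refine Finset.sum_congr rfl fun q _ => ?_
    rw [Pi.add_apply, add_smul]
  map_smul' c x := by
    rw [RingHom.id_apply, Finset.smul_sum]
    refine Finset.sum_congr rfl fun q _ => ?_
    rw [Pi.smul_apply, smul_eq_mul, mul_smul]

private theorem oP_loc_odd_J_apply {m : ℕ} (P : Pt m) (n : ℕ) (x : Fin n → ℝ) :
    oP_loc_odd_J P n x = ∑ q : Fin n, x q • rep ℝ m P.g (vb ℝ m (P.a + q.val)) := rfl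

private theorem oP_loc_odd_J_vb {m : ℕ} (P : Pt m) (n : ℕ) (q : Fin n) :
    oP_loc_odd_J P n (vb ℝ n q.val) = rep ℝ m P.g (vb ℝ m (P.a + q.val)) := by
  rw [oP_loc_odd_J_apply, Finset.sum_eq_single q]
  · simp [vb]
  · intro r _ hr
    have h1 : ¬ r.val = q.val := fun h => hr (Fin.ext h)
    simp [vb, h1]
  · intro h
    exact absurd (Finset.mem_univ _) h

private theorem oP_loc_odd_J_om {m : ℕ} (P : Pt m) {n : ℕ} (h : P.a + n ≤ m) (x y : Fin n → ℝ) :
    om ℝ m (oP_loc_odd_J P n x) (oP_loc_odd_J P n y) = om ℝ n x y := by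
  conv_rhs => rw [oP_loc_odd_expand x, oP_loc_odd_expand y]
  rw [oP_loc_odd_J_apply, oP_loc_odd_J_apply]
  simp only [map_sum, map_smul, LinearMap.sum_apply, LinearMap.smul_apply]
  refine Finset.sum_congr rfl fun q _ => ?_
  congr 1
  refine Finset.sum_congr rfl fun r _ => ?_
  congr 1
  have hq := q.2
  have hr := r.2
  rw [rep_om, om_vb (by omega) (by omega), om_vb hr hq]
  split_ifs <;> first | rfl | omega

private theorem oP_loc_odd_block {m : ℕ} (P : Pt m) {n : ℕ} (h : P.a + n ≤ m) :
    ((List.range n).filterMap fun q =>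
      if h : P.a + q < m then some (P.g, (⟨P.a + q, h⟩ : Fin m)) else none).map vl =
      (List.finRange n).map fun q : Fin n => rep ℝ m P.g (vb ℝ m (P.a + q.val)) := by
  rw [← List.map_coe_finRange_eq_range, List.filterMap_map]
  have h1 : ∀ L : List (Fin n), (L.filterMap ((fun q =>
      if h : P.a + q < m then some (P.g, (⟨P.a + q, h⟩ : Fin m)) else none) ∘
        fun a : Fin n => (a : ℕ))).map vl =
      L.map fun q : Fin n => rep ℝ m P.g (vb ℝ m (P.a + q.val)) := by
    intro L
    induction L with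
    | nil => rfl
    | cons q L ih =>
      have hq : P.a + q.val < m := by
        have := q.2
        omega
      rw [List.filterMap_cons_some (b := (P.g, (⟨P.a + q.val, hq⟩ : Fin m))), List.map_cons,
        List.map_cons, ih]
      · rfl
      · change (if h : P.a + q.val < m then some (P.g, (⟨P.a + q.val, h⟩ : Fin m)) else none) = _
        rw [dif_pos hq]
  exact h1 _

private theorem oP_loc_odd_word {m : ℕ} (P : Pt m) {n : ℕ} (h : P.a + n ≤ m) (hn : P.k = n + 1) :
    (wd P).map vl = (stdW n).map (oP_loc_odd_J P n) := by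
  rw [← oP_loc_odd_vl]
  unfold wd oP_loc_odd_w
  rw [List.map_flatten, List.map_replicate, List.map_flatten, List.map_replicate,
    List.map_flatten, List.map_replicate, hn, Nat.add_sub_cancel, oP_loc_odd_block P h, List.map_map,
    List.map_map]
  congr 2
  refine List.map_congr_left fun q _ => ?_
  have h1 : vl ((1 : BraidGroup n), q) = vb ℝ n q.val := by
    change rep ℝ n 1 (vb ℝ n q.val) = vb ℝ n q.val
    rw [map_one]
    rfl
  change _ = oP_loc_odd_J P n (vl ((1 : BraidGroup n), q))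
  rw [h1, oP_loc_odd_J_vb]

/-- PROOF. As `oP_loc_even` (the private lemmas `EV3_*` of `Ev.lean` may be copied under new names). -/
theorem oP_loc_odd {m e : ℕ} (P : Pt m) (h : P.a + P.k ≤ m + 1) (hk : P.k = 2 * e + 1) :
    (oP P).Loc (e * (3 * e + 1)) := by
  have hw : (wd P).map vl = (stdW (P.k - 1)).map (oP_loc_odd_J P (P.k - 1)) :=
    oP_loc_odd_word P (by omega) (by omega)
  obtain ⟨F, hF, hF2⟩ := std_loc_odd (m := P.k - 1) (e := e) (by omega)
  obtain ⟨f, hL, hp⟩ := obj_map (ω := om ℝ m) (ω' := om ℝ (P.k - 1)) (oP_loc_odd_J P (P.k - 1))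
    (oP_loc_odd_J_om P (by omega)) (stdW (P.k - 1))
  unfold oP
  rw [hw]
  refine ⟨F.map f.toLinearMap, ?_, ?_⟩
  · rw [LinearEquiv.finrank_map_eq]
    exact hF
  · rintro _ ⟨x, hx, rfl⟩
    rw [LinearEquiv.coe_coe, hL, hp]
    obtain ⟨h1, h2⟩ := hF2 x hx
    rw [h1, map_zero]
    exact ⟨rfl, h2⟩

/-- The weight of a point: `3 e² - e - 1` for `k = 2 e`, `3 e² + e` for `k = 2 e + 1`. -/
def hW (k : ℕ) : ℕ :=
  if k % 2 = 0 then 3 * (k / 2) * (k / 2) - k / 2 - 1 else k / 2 * (3 * (k / 2) + 1)

/-- PROOF. `oP_loc_even`, `oP_loc_odd`. -/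
theorem oP_loc_all {m : ℕ} (P : Pt m) (h : P.a + P.k ≤ m + 1) : (oP P).Loc (hW P.k) := by
  unfold hW
  by_cases h2 : P.k % 2 = 0
  · rw [if_pos h2]
    exact oP_loc_even P h (by omega)
  · rw [if_neg h2]
    exact oP_loc_odd P h (by omega)

end Pool.Agent.Helper81.SBA
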